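import Pool.Agent.W_MP_f46629_al.H89_NoSys

/-!
Subnormal subgroups of `GG L` above the congruence subgroup contain many transvections.
-/

namespace Pool.Agent.W_MP_f46629_al.H89

universe u

section ring

variable {L : Type u}

theorem comm_of_sq {A B : EE L} (hA : A * A = 0) (hB : B * B = 0) (hAB : A * B = 0) :
    cm (Xu B) (Xu A) = Xu (B * A) := by
  have hBA : (B * A) * (B * A) = 0 := by
    rw [mul_assoc, ← mul_assoc A, hAB, zero_mul, mul_zero]
  apply Units.ext
  rw [cm, Units.val_mul, Units.val_mul, Units.val_mul, Xu_val hA, Xu_val hB, Xu_inv_val hA,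
    Xu_inv_val hB, Xu_val hBA]
  have h1 : (1 + B) * (1 + A) * (1 - B) * (1 - A) =
      1 + B * A - B * B - A * B - A * A - B * (A * A) + B * (B * A) - B * (A * B)
      + (A * B) * A + B * (A * B) * A  := by
    noncomm_ring
  rw [h1, hB, hAB, hA]
  have h2 : B * (B * A) = 0 := by rw [← mul_assoc, hB, zero_mul]
  rw [h2]
  simp

theorem E_mul (r s t : List L) : E s t * E r s = E r t := by
  apply ext_e
  intro q
  rw [Module.End.mul_apply]
  by_cases hq : r <+: q
  · obtain ⟨t', rfl⟩ := hq
    rw [E_append, E_append, E_append]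
  · rw [E_zero hq, E_zero hq, map_zero]

end ring

section start

variable {L : Type u} [LinearOrder L]

/-- The complement of the lists starting with `z0` is invariant. -/
theorem start_inv {n : ℕ} {F : Set L} {A : EE L} (hA : Nice n F A) {z0 : L} (hz : z0 ∉ F)
    (q : List L) (hq : ∀ t, q ≠ z0 :: t) :
    A (e q) ∈ Finsupp.supported ℤ ℤ {q' : List L | ∀ t, q' ≠ z0 :: t} := by
  by_cases hmem : z0 ∈ q
  · obtain ⟨s, t, rfl, hs⟩ := List.eq_append_cons_of_mem hmem
    rw [hA.p2 s z0 t hz]
    have h1 : ∀ w ∈ Finsupp.supported ℤ ℤ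
        {q' : List L | q'.length = s.length ∧ ∀ x ∈ q', x ∈ F ∨ x ∈ s},
        App (z0 :: t) w ∈ Finsupp.supported ℤ ℤ {q' : List L | ∀ t, q' ≠ z0 :: t} := by
      apply map_supported
      rintro p ⟨hp, hp'⟩
      rw [App_e]
      apply e_mem
      intro t' ht'
      cases p with
      | nil =>
        have : s = [] := List.length_eq_zero_iff.1 hp.symm
        exact hq t (by rw [this]; rfl)
      | cons y p =>
        have h2 : y = z0 := by
          simp only [List.cons_append, List.cons.injEq] at ht'
          exact ht'.1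
        rcases hp' y (by simp) with h | h
        · exact hz (h2 ▸ h)
        · exact hs (h2 ▸ h)
    exact h1 _ (hA.len s)
  · refine Finsupp.supported_mono ?_ (hA.len q)
    rintro q' ⟨-, hq'⟩ t rfl
    rcases hq' z0 (by simp) with h | h
    · exact hz h
    · exact hmem h

theorem fix_nil {n : ℕ} {F : Set L} {A : EE L} (hA : Nice n F A) : A (e []) = e [] := by
  have h := hA.up []
  have h1 : {q' : List L | clt [] q'} = ∅ := by
    ext q
    simp
  rw [h1, Finsupp.supported_empty, Submodule.mem_bot] at h
  exact sub_eq_zero.1 h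

theorem fix_start {n : ℕ} {F : Set L} {A : EE L} (hA : Nice n F A) {z0 : L} (hz : z0 ∉ F)
    (t : List L) : A (e (z0 :: t)) = e (z0 :: t) := by
  have := hA.p2 [] z0 t hz
  rw [fix_nil hA] at this
  simpa using this

theorem E_mul_nice {n : ℕ} {F : Set L} {A : EE L} (hA : Nice n F A) {z0 : L} (hz : z0 ∉ F)
    (z' s : List L) : E (z0 :: z') s * A = E (z0 :: z') s := by
  apply ext_e
  intro q
  rw [Module.End.mul_apply]
  by_cases hq : ∃ t, q = z0 :: t
  · obtain ⟨t, rfl⟩ := hq
    rw [fix_start hA hz]
  · push Not at hq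
    have h1 := start_inv hA hz q hq
    have hnot : ∀ q' : List L, (∀ t, q' ≠ z0 :: t) → ¬ (z0 :: z') <+: q' := by
      rintro q' hq' ⟨t, rfl⟩
      exact hq' (z' ++ t) rfl
    rw [E_zero (hnot q hq)]
    have h2 := eq_on_supported (A := E (z0 :: z') s) (B := 0)
      (S := {q' : List L | ∀ t, q' ≠ z0 :: t}) (fun q' hq' => by
        rw [E_zero (hnot q' hq')]; rfl) _ h1
    simpa using h2

/-- An element outside the congruence subgroup has an odd coefficient. -/
theorem exists_odd {n : ℕ} {F : Set L} {g : (EE L)ˣ} (hg : g ∈ Gn n F) (hR : g ∉ R2 L)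
    {z0 : L} (hz : z0 ∉ F) :
    ∃ r s : List L, r.length = n ∧ s.length = n ∧
      Odd ((((g : EE L) - 1) (e r)) s) := by
  classical
  have hN := nice_of_mem hg
  -- some odd coefficient
  have h1 : ∃ q s : List L, Odd ((((g : EE L) - 1) (e q)) s) := by
    by_contra hcon
    push Not at hcon
    apply hR
    have h2 : ∀ q s : List L, ∃ c : ℤ, (((g : EE L) - 1) (e q)) s = c + c := by
      intro q s
      exact Int.not_odd_iff_even.1 (hcon q s)
    -- halve
    let hlf : List L → NN L := fun q =>
      Finsupp.mapRange (fun a : ℤ => a / 2) (by simp) (((g : EE L) - 1) (e q))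
    have hhlf : ∀ q, hlf q + hlf q = ((g : EE L) - 1) (e q) := by
      intro q
      ext s
      obtain ⟨c, hc⟩ := h2 q s
      simp only [hlf, Finsupp.add_apply, Finsupp.mapRange_apply, hc]
      omega
    refine ⟨Finsupp.linearCombination ℤ hlf, ?_⟩
    apply ext_e
    intro q
    rw [two_mul, LinearMap.add_apply, LinearMap.add_apply, Finsupp.linearCombination_single,
      one_smul, hhlf]
    simp [LinearMap.sub_apply]
  obtain ⟨q, s, hs⟩ := h1
  -- move to length `n`
  have hAppInj : ∀ (t p : List L) (w : NN L), (App t w) (p ++ t) = w p := by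
    intro t p w
    have hinj : Function.Injective (fun q : List L => q ++ t) := fun a b h =>
      List.append_cancel_right h
    exact Finsupp.mapDomain_apply hinj w p
  have hlen : ∀ r s : List L, (((g : EE L) - 1) (e r)) s ≠ 0 → s.length = r.length := by
    intro r s h
    have h3 : ((g : EE L) - 1) (e r) ∈ Finsupp.supported ℤ ℤ
        {q' : List L | q'.length = r.length ∧ ∀ x ∈ q', x ∈ F ∨ x ∈ r} := by
      have : ((g : EE L) - 1) (e r) = (g : EE L) (e r) - e r := by simp [LinearMap.sub_apply]
      rw [this]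
      exact sub_mem (hN.len r) (e_mem ⟨rfl, fun x hx => Or.inr hx⟩)
    rw [Finsupp.mem_supported] at h3
    exact (h3 (Finsupp.mem_support_iff.2 h)).1
  have hne : (((g : EE L) - 1) (e q)) s ≠ 0 := by
    intro h
    rw [h] at hs
    exact absurd hs (by decide)
  by_cases hq : n ≤ q.length
  · have h4 : q = q.take n ++ q.drop n := by simp
    have h5 : (q.take n).length = n := by simp; omega
    have h6 : ((g : EE L) - 1) (e q) = App (q.drop n) (((g : EE L) - 1) (e (q.take n))) := by
      have h7 := hN.p1 (q.take n) (q.drop n) h5.ge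
      rw [← h4] at h7
      simp only [LinearMap.sub_apply, Module.End.one_apply, map_sub, App_e, h7]
      rw [← h4]
    have h8 : ((g : EE L) - 1) (e (q.take n)) ∈ Finsupp.supported ℤ ℤ Set.univ := by simp
    -- `s` ends with `q.drop n`
    have h9 : ∃ p, s = p ++ q.drop n := by
      by_contra hcon
      push Not at hcon
      apply hne
      rw [h6]
      apply Finsupp.mapDomain_of_notMem_range
      rintro ⟨p, hp⟩
      exact hcon p hp.symm
    obtain ⟨p, hp⟩ := h9
    rw [h6, hp, hAppInj] at hs
    refine ⟨q.take n, p, h5, ?_, hs⟩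
    have h10 : (((g : EE L) - 1) (e (q.take n))) p ≠ 0 := by
      intro h
      rw [h] at hs
      exact absurd hs (by decide)
    rw [hlen _ _ h10, h5]
  · rw [not_le] at hq
    obtain ⟨k, hk⟩ : ∃ k, n = q.length + (k + 1) := ⟨n - q.length - 1, by omega⟩
    have h6 : ((g : EE L) - 1) (e (q ++ z0 :: List.replicate k z0)) =
        App (z0 :: List.replicate k z0) (((g : EE L) - 1) (e q)) := by
      have h7 := hN.p2 q z0 (List.replicate k z0) hz
      simp only [LinearMap.sub_apply, Module.End.one_apply, map_sub, App_e, h7]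
    refine ⟨q ++ z0 :: List.replicate k z0, s ++ z0 :: List.replicate k z0, ?_, ?_, ?_⟩
    · simp; omega
    · simp only [List.length_append, List.length_cons, List.length_replicate, hlen _ _ hne]
      omega
    · rw [h6, hAppInj]
      exact hs

end start

end Pool.Agent.W_MP_f46629_al.H89
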