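import Pool.Agent.W_MP_f46629_al.H89_Big

/-!
Subnormal subgroups of `GG L` above the congruence subgroup contain many transvections.
-/

namespace Pool.Agent.W_MP_f46629_al.H89

universe u

section normal

variable {G : Type u} [Group G] {H K : Subgroup G}

theorem conj_mem_of (hle : H ≤ K) (hN : (H.subgroupOf K).Normal) {h k : G} (hh : h ∈ H)
    (hk : k ∈ K) : k * h * k⁻¹ ∈ H :=
  hN.conj_mem ⟨h, hle hh⟩ hh ⟨k, hk⟩

theorem cm_mem_left (hle : H ≤ K) (hN : (H.subgroupOf K).Normal) {h k : G} (hh : h ∈ H)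
    (hk : k ∈ K) : cm h k ∈ H := by
  have h1 : cm h k = h * (k * h⁻¹ * k⁻¹) := by simp [cm, mul_assoc]
  rw [h1]
  exact mul_mem hh (conj_mem_of hle hN (inv_mem hh) hk)

theorem cm_mem_right (hle : H ≤ K) (hN : (H.subgroupOf K).Normal) {h k : G} (hh : h ∈ H)
    (hk : k ∈ K) : cm k h ∈ H :=
  mul_mem (conj_mem_of hle hN hh hk) (inv_mem hh)

end normal

variable {L : Type u} [LinearOrder L]

open Classical in
/-- The transvections as elements of `GG L`. -/
noncomputable def tv (r s : List L) (a b : L) : GG L :=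
  if h : r.length = s.length ∧ a < b then
    ⟨Xu (E (r ++ [a]) (s ++ [b])), Gn_le_GG (r.length + 1) Set.univ (Subgroup.subset_closure
      ⟨r, s, a, b, h.1, h.2, Nat.lt_succ_self _, fun _ _ => trivial, fun _ _ => trivial,
        trivial, trivial, rfl⟩)⟩ else 1

theorem tv_coe {r s : List L} {a b : L} (hl : r.length = s.length) (hab : a < b) :
    ((tv r s a b : GG L) : (EE L)ˣ) = Xu (E (r ++ [a]) (s ++ [b])) := by
  rw [tv, dif_pos ⟨hl, hab⟩]

omit [LinearOrder L] in
theorem E_mul_E_zero {r s r' s' : List L} {a b c d : L} (hl : r.length = s'.length)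
    (had : a ≠ d) : E (r ++ [a]) (s ++ [b]) * E (r' ++ [c]) (s' ++ [d]) = 0 :=
  E_mul_zero (fun t => not_prefix_of hl had t)

theorem tv_comm {r s t : List L} {a b c : L} (h1 : r.length = s.length)
    (h2 : s.length = t.length) (hab : a < b) (hbc : b < c) :
    cm (tv s t b c) (tv r s a b) = tv r t a c := by
  apply Subtype.ext
  have h3 : ((cm (tv s t b c) (tv r s a b) : GG L) : (EE L)ˣ) =
    cm ((tv s t b c : GG L) : (EE L)ˣ) ((tv r s a b : GG L) : (EE L)ˣ) :=
      map_cm (GG L).subtype _ _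
  rw [h3, tv_coe h1 hab, tv_coe h2 hbc, tv_coe (h1.trans h2) (hab.trans hbc),
    comm_of_sq (E_sq h1 hab.ne) (E_sq h2 hbc.ne)
      (E_mul_E_zero (h1.trans h2) (hab.trans hbc).ne), E_mul]

theorem tv_sq {r s : List L} {a b : L} (h1 : r.length = s.length) (hab : a < b) :
    tv r s a b * tv r s a b ∈ RR L := by
  change ((tv r s a b * tv r s a b : GG L) : (EE L)ˣ) ∈ R2 L
  refine ⟨E (r ++ [a]) (s ++ [b]), ?_⟩
  rw [Subgroup.coe_mul, Units.val_mul, tv_coe h1 hab, Xu_val (E_sq h1 hab.ne)]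
  have h2 := E_sq h1 hab.ne
  set A := E (r ++ [a]) (s ++ [b])
  have h3 : (1 + A) * (1 + A) = 1 + 2 * A + A * A := by noncomm_ring
  rw [h3, h2, add_zero]

theorem tv_not_mem {r s : List L} {a b : L} (h1 : r.length = s.length) (hab : a < b) :
    tv r s a b ∉ RR L := by
  intro h
  have h2 : ((tv r s a b : GG L) : (EE L)ˣ) ∈ R2 L := h
  obtain ⟨c, hc⟩ := h2
  rw [tv_coe h1 hab, Xu_val (E_sq h1 hab.ne)] at hc
  have h3 : E (r ++ [a]) (s ++ [b]) = 2 * c := add_left_cancel hc
  have h4 := LinearMap.congr_fun h3 (e (r ++ [a]))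
  rw [E_self, two_mul, LinearMap.add_apply] at h4
  have h5 := DFunLike.congr_fun h4 (s ++ [b])
  rw [Finsupp.single_eq_same, Finsupp.add_apply] at h5
  omega

theorem RR_normal : (RR L).Normal := by
  unfold RR
  infer_instance

omit [LinearOrder L] in
/-- The first commutator. -/
theorem comm_one {g : (EE L)ˣ} {T : EE L} (hT : T * T = 0)
    (hTg : T * ((g⁻¹ : (EE L)ˣ) : EE L) = T) :
    cm g (Xu T) = Xu (((g : EE L) - 1) * T) := by
  have hTg' : T * (g : EE L) = T := by
    conv_lhs => rw [← hTg]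
    rw [mul_assoc, g.inv_mul, mul_one]
  have hY : (((g : EE L) - 1) * T) * (((g : EE L) - 1) * T) = 0 := by
    rw [mul_assoc, ← mul_assoc T, mul_sub T, hTg', mul_one, sub_self, zero_mul, mul_zero]
  apply Units.ext
  rw [cm, Units.val_mul, Units.val_mul, Units.val_mul, Xu_val hT, Xu_inv_val hT, Xu_val hY]
  have h1 : (g : EE L) * (1 + T) * ((g⁻¹ : (EE L)ˣ) : EE L) = 1 + g * T := by
    rw [mul_add, mul_one, add_mul, g.mul_inv, mul_assoc, hTg]
  rw [h1]
  have h2 : (1 + (g : EE L) * T) * (1 - T) = 1 + g * T - T - g * (T * T) := by noncomm_ring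
  rw [h2, hT, mul_zero, sub_zero, sub_mul, one_mul]
  abel

/-- The product `B (g - 1) T`. -/
theorem comp_val {n : ℕ} {F : Set L} {g : EE L} (hN : Nice n F g) {r s1 : List L} {m : L}
    (hr : r.length = n) (hs : s1.length = n) (p q : List L) :
    E (s1 ++ [m]) q * ((g - 1) * E p (r ++ [m])) = (((g - 1) (e r)) s1) • E p q := by
  classical
  apply ext_e
  intro x
  rw [Module.End.mul_apply, Module.End.mul_apply, LinearMap.smul_apply]
  by_cases hx : p <+: x
  · obtain ⟨t, rfl⟩ := hx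
    rw [E_append, E_append]
    have h1 : (g - 1) (e (r ++ [m] ++ t)) = App ([m] ++ t) ((g - 1) (e r)) := by
      have h7 := hN.p1 r ([m] ++ t) hr.ge
      simp only [LinearMap.sub_apply, Module.End.one_apply, map_sub, App_e, List.append_assoc,
        h7]
    rw [h1]
    -- linear in the vector
    have h2 : ∀ w ∈ Finsupp.supported ℤ ℤ {y : List L | y.length = n},
        E (s1 ++ [m]) q (App ([m] ++ t) w) = (w s1) • e (q ++ t) := by
      intro w hw
      rw [Finsupp.supported_eq_span_single] at hw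
      induction hw using Submodule.span_induction with
      | mem w hw =>
        obtain ⟨y, hy, rfl⟩ := hw
        have hy' : y.length = n := hy
        change E (s1 ++ [m]) q (App ([m] ++ t) (e y)) = _
        rw [App_e]
        by_cases hys : y = s1
        · subst hys
          have h3 : y ++ ([m] ++ t) = (y ++ [m]) ++ t := by simp
          rw [h3, E_append, Finsupp.single_eq_same, one_smul]
        · have h3 : ¬ (s1 ++ [m]) <+: y ++ ([m] ++ t) := by
            rintro ⟨t', ht'⟩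
            rw [List.append_assoc] at ht'
            exact hys (List.append_inj ht' (hs.trans hy'.symm)).1.symm
          rw [E_zero h3, Finsupp.single_eq_of_ne (Ne.symm hys), zero_smul]
      | zero => simp
      | add w w' _ _ h h' => simp only [map_add, Finsupp.add_apply, h, h', add_smul]
      | smul c w _ h => simp only [map_smul, Finsupp.smul_apply, h, smul_assoc]
    apply h2
    have h3 : (g - 1) (e r) = g (e r) - e r := by simp [LinearMap.sub_apply]
    rw [h3]
    exact sub_mem (Finsupp.supported_mono (fun y hy => hy.1.trans hr) (hN.len r)) (e_mem hr)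
  · rw [E_zero hx, E_zero hx, map_zero, map_zero, smul_zero]

theorem climb {n : ℕ} {F : Set L} {g : GG L} (hg : (g : (EE L)ˣ) ∈ Gn (n + 1) F) {z0 : L}
    (hz : z0 ∉ F) {r s1 : List L} (hr : r.length = n + 1) (hs : s1.length = n + 1)
    (hodd : Odd (((((g : (EE L)ˣ) : EE L) - 1) (e r)) s1))
    {H K : Subgroup (GG L)} (hle : H ≤ K) (hN : (H.subgroupOf K).Normal)
    (hRH : RR L ≤ H) (hgH : g ∈ H) {a b : List L} (ha : a.length = n + 1)
    (hb : b.length = n + 1) {κ l m ν : L} (h1 : κ < l) (h2 : l < m) (h3 : m < ν)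
    (hK1 : tv a (z0 :: List.replicate n z0) κ l ∈ K)
    (hK2 : tv (z0 :: List.replicate n z0) r l m ∈ K)
    (hK3 : tv s1 b m ν ∈ K) : tv a b κ ν ∈ H := by
  set z : List L := z0 :: List.replicate n z0 with hzdef
  have hzl : z.length = n + 1 := by simp [hzdef]
  -- the first commutator
  have hc1 : cm g (tv z r l m) ∈ H := cm_mem_left hle hN hgH hK2
  have hc2 : cm (tv s1 b m ν) (cm g (tv z r l m)) ∈ H := cm_mem_right hle hN hc1 hK3
  set T : EE L := E (z ++ [l]) (r ++ [m]) with hT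
  have hTT : T * T = 0 := E_sq (hzl.trans hr.symm) h2.ne
  have hTg : T * ((((g : (EE L)ˣ)⁻¹ : (EE L)ˣ)) : EE L) = T :=
    E_mul_nice (nice_of_mem (inv_mem hg)) hz (List.replicate n z0 ++ [l]) (r ++ [m])
  have hval1 : ((cm g (tv z r l m) : GG L) : (EE L)ˣ) =
      Xu ((((g : (EE L)ˣ) : EE L) - 1) * T) := by
    have h4 : ((cm g (tv z r l m) : GG L) : (EE L)ˣ) =
      cm (g : (EE L)ˣ) ((tv z r l m : GG L) : (EE L)ˣ) := map_cm (GG L).subtype _ _
    rw [h4, tv_coe (hzl.trans hr.symm) h2]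
    exact comm_one hTT hTg
  set Y : EE L := (((g : (EE L)ˣ) : EE L) - 1) * T with hY
  set B : EE L := E (s1 ++ [m]) (b ++ [ν]) with hB
  have hBB : B * B = 0 := E_sq (hs.trans hb.symm) h3.ne
  have hTg' : T * ((g : (EE L)ˣ) : EE L) = T := by
    conv_lhs => rw [← hTg]
    rw [mul_assoc, Units.inv_mul, mul_one]
  have hYY : Y * Y = 0 := by
    rw [hY, mul_assoc, ← mul_assoc T, mul_sub T, hTg', mul_one, sub_self, zero_mul, mul_zero]
  have hYB : Y * B = 0 := by
    rw [hY, mul_assoc, hT, hB, E_mul_E_zero (hzl.trans hb.symm) (h2.trans h3).ne, mul_zero]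
  set c : ℤ := ((((g : (EE L)ˣ) : EE L) - 1) (e r)) s1 with hc
  have hBY : B * Y = c • E (z ++ [l]) (b ++ [ν]) :=
    comp_val (nice_of_mem hg) hr hs (z ++ [l]) (b ++ [ν])
  have hval2 : ((cm (tv s1 b m ν) (cm g (tv z r l m)) : GG L) : (EE L)ˣ) =
      Xu (c • E (z ++ [l]) (b ++ [ν])) := by
    have h4 : ((cm (tv s1 b m ν) (cm g (tv z r l m)) : GG L) : (EE L)ˣ) =
      cm ((tv s1 b m ν : GG L) : (EE L)ˣ) ((cm g (tv z r l m) : GG L) : (EE L)ˣ) :=
        map_cm (GG L).subtype _ _
    rw [h4, tv_coe (hs.trans hb.symm) h3, hval1, comm_of_sq hYY hBB hYB, hBY]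
  -- modulo the congruence subgroup
  have hmem : tv z b l ν ∈ H := by
    have h5 : (cm (tv s1 b m ν) (cm g (tv z r l m)))⁻¹ * tv z b l ν ∈ RR L := by
      change (((cm (tv s1 b m ν) (cm g (tv z r l m)))⁻¹ * tv z b l ν : GG L) : (EE L)ˣ) ∈ R2 L
      obtain ⟨k, hk⟩ := hodd
      have hEE : E (z ++ [l]) (b ++ [ν]) * E (z ++ [l]) (b ++ [ν]) = 0 :=
        E_sq (hzl.trans hb.symm) (h2.trans h3).ne
      have hcEE : (c • E (z ++ [l]) (b ++ [ν])) * (c • E (z ++ [l]) (b ++ [ν])) = 0 := by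
        rw [smul_mul_assoc, mul_smul_comm, hEE, smul_zero, smul_zero]
      refine ⟨(-k) • E (z ++ [l]) (b ++ [ν]), ?_⟩
      rw [Subgroup.coe_mul, Subgroup.coe_inv, hval2, Units.val_mul, Xu_inv_val hcEE,
        tv_coe (hzl.trans hb.symm) (h2.trans h3), Xu_val hEE]
      have h6 : (1 - c • E (z ++ [l]) (b ++ [ν])) * (1 + E (z ++ [l]) (b ++ [ν])) =
          1 + E (z ++ [l]) (b ++ [ν]) - c • E (z ++ [l]) (b ++ [ν]) := by
        rw [mul_add, mul_one, sub_mul, one_mul, smul_mul_assoc, hEE, smul_zero, sub_zero]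
        abel
      rw [h6]
      have h7 : c = 2 * k + 1 := hk
      rw [h7, add_smul, one_smul, mul_comm (2 : ℤ) k, mul_smul, neg_smul, two_mul, two_smul,
        smul_add]
      abel
    have h6 := mul_mem hc2 (hRH h5)
    rwa [mul_inv_cancel_left] at h6
  have h7 := cm_mem_left hle hN hmem hK1
  rwa [tv_comm (ha.trans hzl.symm) (hzl.trans hb.symm) h1 (h2.trans h3)] at h7

end Pool.Agent.W_MP_f46629_al.H89
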