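import Mathlib

/-!
The Erdős–Rado partition theorem.
-/

namespace Pool.Agent.W_MP_f46629_al.H89

universe u

open Cardinal Set

/-- iterated exponential -/
noncomputable def iexp : ℕ → Cardinal.{u} → Cardinal.{u}
  | 0, c => c
  | k + 1, c => 2 ^ iexp k c

theorem le_iexp (k : ℕ) (c : Cardinal.{u}) : c ≤ iexp k c := by
  induction k with
  | zero => exact le_rfl
  | succ k ih => exact ih.trans (cantor _).le

section endhom

variable {I : Type u} [LinearOrder I] [WellFoundedLT I] {C : Type u}

/-- arities of the Skolem terms -/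
def bet (J C : Type u) : Option (Finset J → C) → Type u
  | none => PEmpty
  | some _ => J

open Classical in
/-- evaluation step of the Skolem terms -/
noncomputable def step (J : Type u) (f : Finset I → C) (x0 : I) :
    (Σ a : Option (Finset J → C), bet J C a → I) → I
  | ⟨none, _⟩ => x0
  | ⟨some τ, z⟩ =>
    if h : {x : I | (∀ i : J, z i < x) ∧ ∀ b : Finset J,
        f (insert x (b.image (fun i => (z i : I)))) = τ b}.Nonempty
    then WellFounded.min (wellFounded_lt (α := I)) _ h else x0

theorem card_W (J C : Type u) (hJ : ℵ₀ ≤ #J) (hC : #C ≤ #J) :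
    #(WType (bet J C)) ≤ 2 ^ #J := by
  have hJi : Infinite J := infinite_iff.2 hJ
  apply WType.cardinalMk_le_of_le'
  have h2 : ℵ₀ ≤ (2 : Cardinal.{u}) ^ #J := hJ.trans (cantor _).le
  have hα : #(Option (Finset J → C)) ≤ 2 ^ #J := by
    rw [mk_option, mk_arrow, lift_id, lift_id, mk_finset_of_infinite]
    refine add_le_of_le h2 ?_ (one_le_aleph0.trans h2)
    calc #C ^ #J ≤ (2 ^ #J) ^ #J := power_le_power_right (hC.trans (cantor _).le)
      _ = 2 ^ #J := by rw [← power_mul, mul_eq_self hJ]
  calc (Cardinal.sum fun a : Option (Finset J → C) => (2 ^ #J) ^ lift.{u} #(bet J C a))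
      ≤ Cardinal.sum (fun _ : Option (Finset J → C) => (2 : Cardinal.{u}) ^ #J) := by
        apply sum_le_sum
        intro a
        cases a with
        | none => simp [bet, one_le_aleph0.trans h2]
        | some τ =>
          simp only [bet, lift_id]
          rw [← power_mul, mul_eq_self hJ]
    _ = #(Option (Finset J → C)) * 2 ^ #J := sum_const' _ _
    _ ≤ 2 ^ #J * 2 ^ #J := mul_le_mul_left hα _
    _ = 2 ^ #J := mul_eq_self h2

/-- End-homogeneous sets. -/
theorem end_homog (μ : Cardinal.{u}) (hμ : ℵ₀ ≤ μ) (hC : #C ≤ μ) (hI : 2 ^ μ < #I)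
    (f : Finset I → C) :
    ∃ (x : I) (Y : Set I), μ < #Y ∧ ∀ b : Finset I, b.Nonempty → (b : Set I) ⊆ Y →
      ∀ y ∈ Y, (∀ z ∈ b, z < y) → f (insert y b) = f (insert x b) := by
  classical
  obtain ⟨J, rfl⟩ : ∃ J : Type u, #J = μ := ⟨μ.out, μ.mk_out⟩
  have hne : Nonempty I := by
    rw [← mk_ne_zero_iff]
    exact (zero_le.trans_lt hI).ne'
  have hne' : (Set.univ : Set I).Nonempty := univ_nonempty
  set x0 : I := WellFounded.min (wellFounded_lt (α := I)) Set.univ hne' with hx0
  have hx0le : ∀ x : I, x0 ≤ x := fun x => by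
    have := WellFounded.not_lt_min (wellFounded_lt (α := I)) Set.univ (mem_univ x)
    exact not_lt.1 this
  let ev : WType (bet J C) → I := WType.elim I (step J f x0)
  have hev0 : x0 ∈ range ev := ⟨WType.mk none PEmpty.elim, rfl⟩
  have hcard : #(range ev) ≤ 2 ^ #J := mk_range_le.trans (card_W J C hμ hC)
  obtain ⟨x, hx⟩ : ∃ x, x ∉ range ev := by
    by_contra h
    push Not at h
    have : range ev = Set.univ := eq_univ_of_forall h
    rw [this, Cardinal.mk_univ] at hcard
    exact absurd hI (not_lt.2 hcard)
  have hx0x : x0 < x := lt_of_le_of_ne (hx0le x) (fun h => hx (h ▸ hev0))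
  let S : Set (Set I) := {Y | Y ⊆ range ev ∧ (∀ y ∈ Y, y < x) ∧
    ∀ b : Finset I, b.Nonempty → (b : Set I) ⊆ Y →
      ∀ y ∈ Y, (∀ z ∈ b, z < y) → f (insert y b) = f (insert x b)}
  have hS0 : {x0} ∈ S := by
    refine ⟨by simpa using hev0, by simpa using hx0x, ?_⟩
    intro b hb hbs y hy hlt
    obtain ⟨z, hz⟩ := hb
    have h1 : z = x0 := hbs hz
    have h2 : y = x0 := hy
    have := hlt z hz
    rw [h1, h2] at this
    exact absurd this (lt_irrefl _)
  obtain ⟨Y, hY0, hYmax⟩ := zorn_subset_nonempty S (by
    intro c hc hchain hcne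
    refine ⟨⋃₀ c, ⟨?_, ?_, ?_⟩, fun s hs => subset_sUnion_of_mem hs⟩
    · exact sUnion_subset (fun s hs => (hc hs).1)
    · rintro y ⟨s, hs, hy⟩
      exact (hc hs).2.1 y hy
    · intro b hb hbs y hy hlt
      have hdir : DirectedOn (· ⊆ ·) c := hchain.directedOn
      have hfin : ((insert y b : Finset I) : Set I) ⊆ ⋃ i ∈ c, i := by
        rw [← sUnion_eq_biUnion]
        intro z hz
        rw [Finset.coe_insert] at hz
        rcases mem_insert_iff.1 hz with rfl | hz
        · exact hy
        · exact hbs hz
      obtain ⟨s, hs, hss⟩ := DirectedOn.exists_mem_subset_of_finset_subset_biUnion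
        (f := fun i : Set I => i) hcne hdir hfin
      rw [Finset.coe_insert, insert_subset_iff] at hss
      exact (hc hs).2.2 b hb hss.2 y hss.1 hlt) {x0} hS0
  have hYS : Y ∈ S := hYmax.prop
  refine ⟨x, Y, ?_, hYS.2.2⟩
  by_contra hle
  rw [not_lt] at hle
  have hYne : Nonempty Y := ⟨⟨x0, hY0 rfl⟩⟩
  obtain ⟨emb⟩ : Nonempty (Y ↪ J) := (Cardinal.le_def _ _).1 hle
  let z : J → Y := Function.invFun emb
  have hz : Function.Surjective z := Function.invFun_surjective emb.injective
  have ht : ∀ j : J, ∃ t : WType (bet J C), ev t = z j := fun j => hYS.1 (z j).2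
  choose t ht using ht
  let τ : Finset J → C := fun b => f (insert x (b.image (fun i => (z i : I))))
  have hset : {x' : I | (∀ i : J, ev (t i) < x') ∧ ∀ b : Finset J,
        f (insert x' (b.image (fun i => (ev (t i) : I)))) = τ b}.Nonempty := by
    refine ⟨x, ?_, ?_⟩
    · intro i; rw [ht]; exact hYS.2.1 _ (z i).2
    · intro b
      simp only [ht, τ]
  have hev' : ev (WType.mk (some τ) t) = WellFounded.min (wellFounded_lt (α := I)) _ hset := by
    change step J f x0 ⟨some τ, fun i => ev (t i)⟩ = _
    exact dif_pos hset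
  set x' : I := ev (WType.mk (some τ) t) with hx'
  have hx'mem := WellFounded.min_mem (wellFounded_lt (α := I)) _ hset
  rw [← hev'] at hx'mem
  obtain ⟨h1, h2⟩ := hx'mem
  have hxmem : x ∈ {x' : I | (∀ i : J, ev (t i) < x') ∧ ∀ b : Finset J,
        f (insert x' (b.image (fun i => (ev (t i) : I)))) = τ b} := by
    refine ⟨?_, ?_⟩
    · intro i; rw [ht]; exact hYS.2.1 _ (z i).2
    · intro b
      simp only [ht, τ]
  have hx'le : x' ≤ x := by
    have := WellFounded.not_lt_min (wellFounded_lt (α := I)) _ hxmem
    rw [← hev'] at this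
    exact not_lt.1 this
  have hx'r : x' ∈ range ev := ⟨_, rfl⟩
  have hx'lt : x' < x := lt_of_le_of_ne hx'le (fun h => hx (h ▸ hx'r))
  have hYlt : ∀ y ∈ Y, y < x' := by
    intro y hy
    obtain ⟨j, hj⟩ := hz ⟨y, hy⟩
    have := h1 j
    rw [ht, hj] at this
    exact this
  have hins : insert x' Y ∈ S := by
    refine ⟨insert_subset hx'r hYS.1, ?_, ?_⟩
    · intro y hy
      rcases mem_insert_iff.1 hy with rfl | hy
      · exact hx'lt
      · exact hYS.2.1 y hy
    · intro b hb hbs y hy hlt
      rcases mem_insert_iff.1 hy with rfl | hy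
      · -- `b ⊆ Y`
        have hbY : ∀ w ∈ b, w ∈ Y := by
          intro w hw
          rcases mem_insert_iff.1 (hbs hw) with h | h
          · exact absurd (hlt w hw) (by rw [h]; exact lt_irrefl _)
          · exact h
        let b' : Finset J := b.attach.image (fun w => (hz ⟨w.1, hbY w.1 w.2⟩).choose)
        have hb' : b'.image (fun i => (z i : I)) = b := by
          ext w
          simp only [b', Finset.mem_image, Finset.mem_attach, true_and, Subtype.exists]
          constructor
          · rintro ⟨j, ⟨w', hw', rfl⟩, rfl⟩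
            rw [(hz ⟨w', hbY w' hw'⟩).choose_spec]
            exact hw'
          · intro hw
            exact ⟨_, ⟨w, hw, rfl⟩, by rw [(hz ⟨w, hbY w hw⟩).choose_spec]⟩
        have := h2 b'
        simp only [ht, τ] at this
        rw [hb'] at this
        exact this
      · have hbY : (b : Set I) ⊆ Y := by
          intro w hw
          rcases mem_insert_iff.1 (hbs hw) with h | h
          · exfalso
            have h3 := hlt w hw
            rw [h] at h3
            exact absurd (h3.trans (hYlt y hy)) (lt_irrefl _)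
          · exact h
        exact hYS.2.2 b hb hbY y hy hlt
  have hsub := hYmax.le_of_ge hins (subset_insert _ _)
  have : x' ∈ Y := hsub (mem_insert _ _)
  exact absurd (hYlt x' this) (lt_irrefl _)

end endhom

/-- The Erdős–Rado theorem for `k+1`-element sets. -/
theorem erdos_rado (k : ℕ) (c : Cardinal.{u}) (hc : ℵ₀ ≤ c) :
    ∀ {I : Type u} [LinearOrder I] [WellFoundedLT I] {C : Type u} (_ : #C ≤ c)
      (_ : iexp k c < #I) (f : Finset I → C),
      ∃ (H : Set I) (a : C), c < #H ∧ ∀ b : Finset I, (b : Set I) ⊆ H → b.card = k + 1 →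
        f b = a := by
  classical
  induction k with
  | zero =>
    intro I _ _ C hC hI f
    have hI' : c < #I := hI
    obtain ⟨a, ha⟩ := infinite_pigeonhole_card (fun x : I => f {x}) (Order.succ c)
      (Order.succ_le_of_lt hI') (hc.trans (Order.le_succ _))
      ((hC.trans_lt (Order.lt_succ _)).trans_le (isRegular_succ hc).2.ge)
    refine ⟨(fun x : I => f {x}) ⁻¹' {a}, a, (Order.lt_succ _).trans_le ha, ?_⟩
    intro b hb hcard
    obtain ⟨x, rfl⟩ := Finset.card_eq_one.1 hcard
    exact hb (by simp)
  | succ k ih =>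
    intro I _ _ C hC hI f
    obtain ⟨x, Y, hY, hf⟩ := end_homog (iexp k c) (hc.trans (le_iexp k c))
      (hC.trans (le_iexp k c)) hI f
    obtain ⟨H', a, hH', ha⟩ := ih (I := Y) hC hY
      (fun b => f (insert x (b.map (Function.Embedding.subtype (· ∈ Y)))))
    refine ⟨Subtype.val '' H', a, ?_, ?_⟩
    · rw [mk_image_eq Subtype.val_injective]; exact hH'
    · intro b hb hcard
      have hbne : b.Nonempty := by
        rw [← Finset.card_pos]; omega
      set y := b.max' hbne with hy
      have hyb : y ∈ b := Finset.max'_mem _ _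
      have hsub : ∀ w ∈ b, ∃ h : w ∈ Y, (⟨w, h⟩ : Y) ∈ H' := by
        intro w hw
        obtain ⟨⟨w', hw'⟩, hw'', rfl⟩ := hb hw
        exact ⟨hw', hw''⟩
      have hb0 : insert y (b.erase y) = b := Finset.insert_erase hyb
      have hcard0 : (b.erase y).card = k + 1 := by
        rw [Finset.card_erase_of_mem hyb]; omega
      have h1 : f (insert y (b.erase y)) = f (insert x (b.erase y)) := by
        apply hf
        · rw [← Finset.card_pos]; omega
        · intro w hw
          exact (hsub w (Finset.mem_of_mem_erase hw)).1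
        · exact (hsub y hyb).1
        · intro z hz
          exact lt_of_le_of_ne (Finset.le_max' _ _ (Finset.mem_of_mem_erase hz))
            (Finset.ne_of_mem_erase hz)
      rw [hb0] at h1
      rw [h1]
      have h2 := ha ((b.erase y).subtype (· ∈ Y)) (by
        intro w hw
        have hw2 : (w : I) ∈ b.erase y := by simpa using hw
        exact (hsub w (Finset.mem_of_mem_erase hw2)).2) (by
        rw [Finset.card_subtype, Finset.filter_true_of_mem, hcard0]
        intro w hw
        exact (hsub w (Finset.mem_of_mem_erase hw)).1)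
      rw [Finset.subtype_map_of_mem] at h2
      · exact h2
      · intro w hw
        exact (hsub w (Finset.mem_of_mem_erase hw)).1

end Pool.Agent.W_MP_f46629_al.H89
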