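import Pool.Agent.W_MP_f46629_al.H89_Main

/-!
The congruence subgroup contains no system: the contradiction.
-/

namespace Pool.Agent.W_MP_f46629_al.H89

universe u

open Cardinal Set

variable {L : Type u} [LinearOrder L] {J : Type u} [LinearOrder J] {Q : Type u} [Group Q]
  {W : Subgroup (EE L)ˣ} {φ : W →* Q} {v : J → J → W} {n : ℕ} {F : J → J → Finset L}

/-- One commutator step. -/
theorem one_step (hn : W ≤ Gn n Set.univ) (hR : W ≤ R2 L) {m : ℕ} {i : List L} {x : W}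
    (hx : x ∈ Pf W m i) {k : ℕ} {w : NN L} {A : Set L} {B : Finset L}
    (hw : pf i x = 2 ^ k • w)
    (hwA : w ∈ Finsupp.supported ℤ ℤ {q : List L | q.length = m ∧ ∀ y ∈ q, y ∈ A})
    {g : W} {n' : ℕ} (hg : (g : (EE L)ˣ) ∈ Gn n' (B : Set L)) :
    ∃ w' : NN L, pf i (cm g x) = 2 ^ (k + 1) • w' ∧
      w' ∈ Finsupp.supported ℤ ℤ {q : List L | q.length = m ∧ ∀ y ∈ q, y ∈ A ∨ y ∈ B} := by
  obtain ⟨c, hc⟩ := hR g.2
  have h1 : ((g : (EE L)ˣ) : EE L) - 1 = 2 * c := by rw [hc]; abel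
  refine ⟨c w, ?_, ?_⟩
  · rw [pf_cm hn g hx, h1, hw, map_nsmul, two_mul, LinearMap.add_apply, ← two_smul ℕ (c w),
      smul_smul, pow_succ]
  · have h2 : ∀ w0 ∈ Finsupp.supported ℤ ℤ {q : List L | q.length = m ∧ ∀ y ∈ q, y ∈ A},
        (((g : (EE L)ˣ) : EE L) - 1) w0 ∈
        Finsupp.supported ℤ ℤ {q : List L | q.length = m ∧ ∀ y ∈ q, y ∈ A ∨ y ∈ B} := by
      apply map_supported
      rintro q ⟨hq, hq'⟩
      have h3 : (((g : (EE L)ˣ) : EE L) - 1) (e q) = ((g : (EE L)ˣ) : EE L) (e q) - e q := by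
        simp [LinearMap.sub_apply]
      rw [h3]
      refine sub_mem (Finsupp.supported_mono ?_ ((nice_of_mem hg).len q)) (e_mem ?_)
      · rintro q' ⟨h4, h5⟩
        refine ⟨h4.trans hq, fun y hy => ?_⟩
        rcases h5 y hy with h | h
        · exact Or.inr h
        · exact Or.inl (hq' y h)
      · exact ⟨hq, fun y hy => Or.inl (hq' y hy)⟩
    have h6 := h2 w hwA
    rw [h1, two_mul, LinearMap.add_apply, ← two_smul ℤ (c w), Finsupp.mem_supported,
      Finsupp.support_smul_eq (by norm_num)] at h6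
    rwa [Finsupp.mem_supported]

theorem exists_torsion (z : AddCircle (1 : ℚ)) : ∃ N d : ℕ, Odd d ∧ (2 ^ N * d) • z = 0 := by
  obtain ⟨q, rfl⟩ := QuotientAddGroup.mk_surjective z
  have hne : q.den ≠ 0 := q.den_ne_zero
  obtain ⟨N, d, hd, hq⟩ := Nat.exists_eq_two_pow_mul_odd hne
  refine ⟨N, d, hd, ?_⟩
  rw [← hq]
  have h1 : q.den • (QuotientAddGroup.mk q : AddCircle (1 : ℚ)) =
      ((q.den • q : ℚ) : AddCircle (1 : ℚ)) := rfl
  rw [h1, AddCircle.coe_eq_zero_iff]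
  refine ⟨q.num, ?_⟩
  simp only [zsmul_eq_mul, mul_one, nsmul_eq_mul]
  exact (Rat.den_mul_eq_num q).symm

theorem odd_two {z : AddCircle (1 : ℚ)} {D : ℕ} (hD : Odd D) (h1 : D • z = 0)
    (h2 : 2 • z = 0) : z = 0 := by
  obtain ⟨k, rfl⟩ := hD
  rw [add_smul, mul_comm, mul_smul, h2, smul_zero, zero_add, one_smul] at h1
  exact h1

/-- Evaluation on the supported elements. -/
theorem eval_zero (Ψ : NN L →+ AddCircle (1 : ℚ)) (N d : List L → ℕ)
    (hd : ∀ q, Odd (d q)) (hN : ∀ q, (2 ^ N q * d q) • Ψ (e q) = 0) (w : NN L) (k : ℕ)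
    (hw : ∀ q ∈ w.support, N q ≤ k) : ∃ D : ℕ, Odd D ∧ D • Ψ (2 ^ k • w) = 0 := by
  classical
  have hodd : Odd (∏ q ∈ w.support, d q) :=
    Finset.prod_induction _ (fun a : ℕ => Odd a) (fun a b ha hb => ha.mul hb) odd_one
      (fun q _ => hd q)
  refine ⟨∏ q ∈ w.support, d q, hodd, ?_⟩
  have h1 : w = ∑ q ∈ w.support, (w q) • (e q : NN L) := by
    conv_lhs => rw [← Finsupp.sum_single w, Finsupp.sum]
    apply Finset.sum_congr rfl
    intro q _
    simp
  rw [map_nsmul, smul_smul]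
  have h0 : Ψ w = ∑ q ∈ w.support, Ψ ((w q) • (e q : NN L)) := by
    rw [← map_sum, ← h1]
  rw [h0, Finset.smul_sum]
  apply Finset.sum_eq_zero
  intro q hq
  rw [map_zsmul, smul_comm]
  have h2 : (2 ^ N q * d q) ∣ (∏ q ∈ w.support, d q) * 2 ^ k := by
    rw [mul_comm]
    exact mul_dvd_mul (Finset.dvd_prod_of_mem d hq) (pow_dvd_pow 2 (hw q hq))
  obtain ⟨c, hc⟩ := h2
  rw [hc, mul_comm, mul_smul, hN, smul_zero, smul_zero]

/-- The contradiction. -/
theorem contra [WellFoundedLT L] [WellFoundedLT J] (S : Setup L J Q W φ v n F) (o : J)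
    (htail : ∀ x : J, ∀ k : ℕ, ∃ y, x < y ∧ iexp k ℵ₀ < #(Ioo x y)) : False := by
  classical
  have hn := S.hn
  have hR := S.hR
  obtain ⟨m, hm, hm'⟩ := exists_m S o (by
    obtain ⟨y, hy, -⟩ := htail o 0
    exact ⟨y, hy⟩)
  obtain ⟨i, hi, ⟨x0, hx0, γ0, hγ0, hφ0⟩, hne⟩ := exists_i S o m hm hm'
  obtain ⟨γ, hγ, hbig⟩ := htail γ0 (2 * m)
  -- the elements `v β δ` act
  have hstep : ∀ (β δ : J) (x : W), o < β → β < δ → φ x = φ (v o β) →
      φ (cm (v β δ) x) = φ (v o δ) := by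
    intro β δ x h1 h2 h3
    rw [map_cm, h3, S.cm o β δ h1 h2]
  set xg : W := cm (v γ0 γ) x0 with hxg
  have hxgP : xg ∈ Pf W m i := Pf_cm hn _ hx0
  have hxgφ : φ xg = φ (v o γ) := hstep _ _ _ hγ0 hγ hφ0
  have hoγ : o < γ := hγ0.trans hγ
  let A2 : AddSubgroup (NN L) :=
    { carrier := {w | ∃ y ∈ Pf W m i, φ y = 1 ∧ pf i y = w}
      zero_mem' := ⟨1, one_mem _, map_one _, pf_one i⟩
      add_mem' := by
        rintro _ _ ⟨y, hy, hy1, rfl⟩ ⟨z, hz, hz1, rfl⟩
        exact ⟨y * z, mul_mem hy hz, by rw [map_mul, hy1, hz1, one_mul], pf_mul hn hy⟩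
      neg_mem' := by
        rintro _ ⟨y, hy, hy1, rfl⟩
        exact ⟨y⁻¹, inv_mem hy, by rw [map_inv, hy1, inv_one], pf_inv hn hy⟩ }
  have hnot : pf i xg ∉ A2 := by
    rintro ⟨y, hy, hy1, hy2⟩
    refine hne (y⁻¹ * xg) (mul_mem (inv_mem hy) hxgP) ⟨γ, hoγ, ?_⟩ ?_
    · rw [map_mul, map_inv, hy1, inv_one, one_mul, hxgφ]
    · rw [pf_mul hn (inv_mem hy), pf_inv hn hy, hy2]
      simp
  have hcoset : ∀ x ∈ Pf W m i, φ x = φ (v o γ) → pf i x - pf i xg ∈ A2 := by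
    intro x hx hx'
    refine ⟨x * xg⁻¹, mul_mem hx (inv_mem hxgP), ?_, ?_⟩
    · rw [map_mul, map_inv, hx', hxgφ, mul_inv_cancel]
    · rw [pf_mul hn hx, pf_inv hn hxgP, sub_eq_add_neg]
  have htwo : pf i xg + pf i xg ∈ A2 := by
    refine ⟨xg * xg, mul_mem hxgP hxgP, ?_, pf_mul hn hxgP⟩
    rw [map_mul, hxgφ]
    exact S.sq o γ hoγ
  have hne0 : (QuotientAddGroup.mk' A2 (pf i xg)) ≠ 0 := by
    intro h
    exact hnot ((QuotientAddGroup.eq_zero_iff _).1 h)
  obtain ⟨c, hc⟩ := CharacterModule.exists_character_apply_ne_zero_of_ne_zero hne0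
  let Ψ : NN L →+ AddCircle (1 : ℚ) := AddMonoidHom.comp c (QuotientAddGroup.mk' A2)
  have hΨ : ∀ w ∈ A2, Ψ w = 0 := by
    intro w hw
    have h1 : QuotientAddGroup.mk' A2 w = 0 := (QuotientAddGroup.eq_zero_iff _).2 hw
    change c (QuotientAddGroup.mk' A2 w) = 0
    rw [h1, map_zero]
  have hΨne : Ψ (pf i xg) ≠ 0 := hc
  have hΨ2 : 2 • Ψ (pf i xg) = 0 := by
    rw [two_smul, ← map_add]
    exact hΨ _ htwo
  have hΨeq : ∀ x ∈ Pf W m i, φ x = φ (v o γ) → Ψ (pf i x) = Ψ (pf i xg) := by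
    intro x hx hx'
    have := hΨ _ (hcoset x hx hx')
    rwa [map_sub, sub_eq_zero] at this
  -- orders
  have htors : ∀ q : List L, ∃ N d : ℕ, Odd d ∧ (2 ^ N * d) • Ψ (e q) = 0 :=
    fun q => exists_torsion _
  choose N d hd hN using htors
  -- letters
  let S0 : Finset L := (pf i x0).support.biUnion (fun q => q.toFinset)
  let pts : Finset (Ioo γ0 γ) → Finset J := fun b =>
    insert γ0 (insert γ (b.image (Subtype.val : Ioo γ0 γ → J)))
  let let' : Finset (Ioo γ0 γ) → Finset L := fun b =>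
    S0 ∪ (pts b ×ˢ pts b).biUnion (fun p => F p.1 p.2)
  let lists : Finset (Ioo γ0 γ) → Finset (List L) := fun b =>
    (finite_lists (let' b).finite_toSet m).toFinset
  let col : Finset (Ioo γ0 γ) → ULift.{u} ℕ := fun b => ⟨(lists b).sup N⟩
  obtain ⟨H, a, hH, ha⟩ := erdos_rado (2 * m) ℵ₀ le_rfl (I := Ioo γ0 γ) (C := ULift.{u} ℕ)
    (by simp) hbig col
  have hHinf : Infinite H := infinite_iff.2 hH.le
  obtain ⟨f, hf⟩ := exists_strictMono (H := H)
  let β : ℕ → J := fun k => Nat.rec γ0 (fun j _ => ((f j : Ioo γ0 γ) : J)) k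
  have hβ0 : β 0 = γ0 := rfl
  have hβs : ∀ j, β (j + 1) = ((f j : Ioo γ0 γ) : J) := fun j => rfl
  have hβlt : ∀ j, β j < β (j + 1) := by
    intro j
    cases j with
    | zero => exact (f 0).1.2.1
    | succ j => exact hf (Nat.lt_succ_self j)
  have hβγ : ∀ j, β j < γ := by
    intro j
    cases j with
    | zero => exact hγ
    | succ j => exact (f j).1.2.2
  have hoβ : ∀ j, o < β j := by
    intro j
    cases j with
    | zero => exact hγ0
    | succ j => exact hγ0.trans (f j).1.2.1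
  -- the chain
  have chain : ∀ k, ∃ x ∈ Pf W m i, φ x = φ (v o (β k)) ∧ ∃ w : NN L, pf i x = 2 ^ k • w ∧
      w ∈ Finsupp.supported ℤ ℤ {q : List L | q.length = m ∧ ∀ y ∈ q,
        y ∈ {y | y ∈ S0 ∨ ∃ j < k, y ∈ F (β j) (β (j + 1))}} := by
    intro k
    induction k with
    | zero =>
      refine ⟨x0, hx0, hφ0, pf i x0, by simp, ?_⟩
      rw [Finsupp.mem_supported]
      intro q hq
      refine ⟨?_, fun y hy => Or.inl ?_⟩
      · have h1 := (nice_of_mem (hn x0.2)).up i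
        rw [Finsupp.mem_supported] at h1
        exact (clt_length (h1 hq)).trans hi
      · simp only [S0, Finset.mem_biUnion]
        exact ⟨q, hq, by simpa using hy⟩
    | succ k ih =>
      obtain ⟨x, hx, hxφ, w, hw, hwA⟩ := ih
      obtain ⟨w', hw', hw'A⟩ := one_step hn hR hx hw hwA (S.hF _ _ (hβlt k))
      refine ⟨cm (v (β k) (β (k + 1))) x, Pf_cm hn _ hx, hstep _ _ _ (hoβ k) (hβlt k) hxφ,
        w', hw', ?_⟩
      apply Finsupp.supported_mono _ hw'A
      rintro q ⟨hq, hq'⟩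
      refine ⟨hq, fun y hy => ?_⟩
      rcases hq' y hy with (h | ⟨j, hj, h⟩) | h
      · exact Or.inl h
      · exact Or.inr ⟨j, by omega, h⟩
      · exact Or.inr ⟨k, by omega, h⟩
  obtain ⟨r, hr1, hr2⟩ : ∃ r : ℕ, 2 * m + 1 ≤ r ∧ a.down ≤ r :=
    ⟨max (2 * m + 1) a.down, le_max_left _ _, le_max_right _ _⟩
  obtain ⟨x, hx, hxφ, w, hw, hwA⟩ := chain r
  obtain ⟨w', hw', hw'A⟩ := one_step hn hR hx hw hwA (S.hF _ _ (hβγ r))
  have hxf : φ (cm (v (β r) γ) x) = φ (v o γ) := hstep _ _ _ (hoβ r) (hβγ r) hxφ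
  -- monotonicity of letters
  have hletmono : ∀ b b', b ⊆ b' → let' b ⊆ let' b' := by
    intro b b' hbb
    have h1 : pts b ⊆ pts b' := by
      apply Finset.insert_subset_insert
      apply Finset.insert_subset_insert
      exact Finset.image_subset_image hbb
    apply Finset.union_subset_union le_rfl
    apply Finset.biUnion_subset_biUnion_of_subset_left
    exact Finset.product_subset_product h1 h1
  let T : Finset (Ioo γ0 γ) := (Finset.range r).image (fun j => (f j : Ioo γ0 γ))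
  have hTcard : T.card = r := by
    rw [Finset.card_image_of_injective, Finset.card_range]
    intro j j' hjj
    exact hf.injective (Subtype.ext hjj)
  have hTH : (T : Set (Ioo γ0 γ)) ⊆ H := by
    intro y hy
    simp only [T, Finset.coe_image, Set.mem_image] at hy
    obtain ⟨j, -, rfl⟩ := hy
    exact (f j).2
  have hptsβ : ∀ j, j ≤ r → ∃ b : Finset (Ioo γ0 γ), b ⊆ T ∧ b.card ≤ 1 ∧
      ∀ b', b ⊆ b' → β j ∈ pts b' := by
    intro j hj
    cases j with
    | zero =>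
      refine ⟨∅, by simp, by simp, fun b' _ => ?_⟩
      simp [pts, hβ0]
    | succ j =>
      refine ⟨{(f j : Ioo γ0 γ)}, ?_, by simp, fun b' hb' => ?_⟩
      · rw [Finset.singleton_subset_iff]
        exact Finset.mem_image.2 ⟨j, by simpa using hj, rfl⟩
      · have h1 : (f j : Ioo γ0 γ) ∈ b' := hb' (by simp)
        simp only [pts, Finset.mem_insert, Finset.mem_image]
        exact Or.inr (Or.inr ⟨_, h1, rfl⟩)
  have hpair : ∀ b' (x y : J), x ∈ pts b' → y ∈ pts b' → F x y ⊆ let' b' := by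
    intro b' x y hx hy z hz
    apply Finset.mem_union_right
    rw [Finset.mem_biUnion]
    exact ⟨(x, y), Finset.mem_product.2 ⟨hx, hy⟩, hz⟩
  have hlet : ∀ y : L, ((y ∈ S0 ∨ ∃ j < r, y ∈ F (β j) (β (j + 1))) ∨ y ∈ F (β r) γ) →
      ∃ b : Finset (Ioo γ0 γ), b ⊆ T ∧ b.card ≤ 2 ∧ y ∈ let' b := by
    rintro y ((h | ⟨j, hj, h⟩) | h)
    · exact ⟨∅, by simp, by simp, Finset.mem_union_left _ h⟩
    · obtain ⟨b1, hb1, hb1', hb1''⟩ := hptsβ j hj.le
      obtain ⟨b2, hb2, hb2', hb2''⟩ := hptsβ (j + 1) hj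
      refine ⟨b1 ∪ b2, Finset.union_subset hb1 hb2, ?_, ?_⟩
      · exact (Finset.card_union_le _ _).trans (by omega)
      · exact hpair _ _ _ (hb1'' _ Finset.subset_union_left) (hb2'' _ Finset.subset_union_right) h
    · obtain ⟨b1, hb1, hb1', hb1''⟩ := hptsβ r le_rfl
      refine ⟨b1, hb1, by omega, ?_⟩
      refine hpair _ _ _ (hb1'' _ le_rfl) ?_ h
      simp [pts]
  have hbound : ∀ q ∈ w'.support, N q ≤ r + 1 := by
    intro q hq
    rw [Finsupp.mem_supported] at hw'A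
    obtain ⟨hq1, hq2⟩ := hw'A hq
    have h1 : ∀ y ∈ q.toFinset, ∃ b : Finset (Ioo γ0 γ), b ⊆ T ∧ b.card ≤ 2 ∧ y ∈ let' b := by
      intro y hy
      exact hlet y (hq2 y (by simpa using hy))
    choose! bb hbb1 hbb2 hbb3 using h1
    have hb0T : q.toFinset.biUnion bb ⊆ T := Finset.biUnion_subset.2 hbb1
    have hb0c : (q.toFinset.biUnion bb).card ≤ 2 * m + 1 := by
      have h2 := Finset.card_biUnion_le_card_mul q.toFinset bb 2 hbb2
      have h3 := List.toFinset_card_le q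
      have : q.toFinset.card * 2 ≤ m * 2 := Nat.mul_le_mul_right _ (hq1 ▸ h3)
      omega
    obtain ⟨b, hb1, hb2, hb3⟩ := Finset.exists_subsuperset_card_eq hb0T hb0c (by rw [hTcard]; exact hr1)
    have h4 : col b = a := ha b ((Finset.coe_subset.2 hb2).trans hTH) hb3
    have h5 : (lists b).sup N = a.down := congrArg ULift.down h4
    have h6 : q ∈ lists b := by
      simp only [lists, Set.Finite.mem_toFinset]
      refine ⟨hq1, fun y hy => ?_⟩
      have hy' : y ∈ q.toFinset := by simpa using hy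
      exact hletmono _ _ ((Finset.subset_biUnion_of_mem bb hy').trans hb1) (hbb3 y hy')
    have h7 : N q ≤ (lists b).sup N := Finset.le_sup h6
    omega
  obtain ⟨D, hD, hD'⟩ := eval_zero Ψ N d hd hN w' (r + 1) hbound
  rw [← hw', hΨeq _ (Pf_cm hn _ hx) hxf] at hD'
  exact hΨne (odd_two hD hD' hΨ2)

end Pool.Agent.W_MP_f46629_al.H89
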