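import Pool.Agent.W_MP_f46629_al.H89_Ops

/-!
The groups generated by the transvections `1 + E r s`.
-/

namespace Pool.Agent.W_MP_f46629_al.H89

universe u

variable {L : Type u}

theorem prefix_of_append_cons {r q t : List L} {x : L} (h : r <+: q ++ x :: t) (hx : x ∉ r) :
    r <+: q := by
  by_cases hl : r.length ≤ q.length
  · exact List.prefix_of_prefix_length_le h (List.prefix_append _ _) hl
  · exfalso
    apply hx
    have h2 : (q ++ [x]) <+: r := by
      apply List.prefix_of_prefix_length_le (l₃ := q ++ x :: t) _ h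
      · simp only [List.length_append, List.length_cons, List.length_nil]; omega
      · exact ⟨t, by simp⟩
    exact h2.subset (by simp)

theorem E_app_of_length {r s q : List L} (t : List L) (h : r.length ≤ q.length) :
    E r s (e (q ++ t)) = App t (E r s (e q)) := by
  by_cases hq : r <+: q
  · obtain ⟨t', rfl⟩ := hq
    rw [List.append_assoc, E_append, E_append, App_e, List.append_assoc]
  · have : ¬ r <+: q ++ t := fun h' =>
      hq (List.prefix_of_prefix_length_le h' (List.prefix_append _ _) h)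
    rw [E_zero hq, E_zero this, map_zero]

theorem E_app_of_not_mem {r s q : List L} {x : L} (t : List L) (h : x ∉ r) :
    E r s (e (q ++ x :: t)) = App (x :: t) (E r s (e q)) := by
  by_cases hq : r <+: q
  · obtain ⟨t', rfl⟩ := hq
    rw [List.append_assoc, E_append, E_append, App_e, List.append_assoc]
  · have : ¬ r <+: q ++ x :: t := fun h' => hq (prefix_of_append_cons h' h)
    rw [E_zero hq, E_zero this, map_zero]

variable [LinearOrder L]

/-- Nice operators: unitriangular, with finite data `(n, F)`. -/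
structure Nice (n : ℕ) (F : Set L) (A : EE L) : Prop where
  len : ∀ q, A (e q) ∈ Finsupp.supported ℤ ℤ
    {q' : List L | q'.length = q.length ∧ ∀ x ∈ q', x ∈ F ∨ x ∈ q}
  up : ∀ q, A (e q) - e q ∈ Finsupp.supported ℤ ℤ {q' : List L | clt q q'}
  p1 : ∀ q t, n ≤ q.length → A (e (q ++ t)) = App t (A (e q))
  p2 : ∀ q x t, x ∉ F → A (e (q ++ x :: t)) = App (x :: t) (A (e q))

theorem Nice.one (n : ℕ) (F : Set L) : Nice n F (1 : EE L) where
  len q := by
    apply e_mem
    exact ⟨rfl, fun x hx => Or.inr hx⟩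
  up q := by simp
  p1 q t _ := by simp
  p2 q x t _ := by simp

theorem Nice.up_map {n : ℕ} {F : Set L} {A : EE L} (hA : Nice n F A) (q : List L) :
    ∀ v ∈ Finsupp.supported ℤ ℤ {q' : List L | clt q q'},
      A v ∈ Finsupp.supported ℤ ℤ {q' : List L | clt q q'} := by
  apply map_supported
  intro q' hq'
  have h1 := hA.up q'
  have h2 : A (e q') = (A (e q') - e q') + e q' := by abel
  rw [h2]
  refine add_mem ?_ (e_mem hq')
  exact Finsupp.supported_mono (fun q'' hq'' => clt_trans hq' hq'') h1

theorem Nice.mul {n : ℕ} {F : Set L} {A B : EE L} (hA : Nice n F A) (hB : Nice n F B) :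
    Nice n F (A * B) where
  len q := by
    rw [Module.End.mul_apply]
    apply map_supported (A := A) _ _ (hB.len q)
    rintro q' ⟨hq', hq''⟩
    apply Finsupp.supported_mono _ (hA.len q')
    rintro q'' ⟨h1, h2⟩
    refine ⟨h1.trans hq', fun x hx => ?_⟩
    rcases h2 x hx with h | h
    · exact Or.inl h
    · exact hq'' x h
  up q := by
    have : (A * B) (e q) - e q = A (B (e q) - e q) + (A (e q) - e q) := by
      rw [Module.End.mul_apply, map_sub]; abel
    rw [this]
    exact add_mem (hA.up_map q _ (hB.up q)) (hA.up q)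
  p1 q t h := by
    rw [Module.End.mul_apply, Module.End.mul_apply, hB.p1 q t h]
    have := eq_on_supported (A := A * App t) (B := App t * A)
      (S := {q' : List L | n ≤ q'.length}) (fun q' hq' => by
        rw [Module.End.mul_apply, Module.End.mul_apply, App_e]
        exact hA.p1 q' t hq') (B (e q))
        (Finsupp.supported_mono (fun q' hq' => by
          have := hq'.1
          simp only [Set.mem_ofPred_eq]; omega) (hB.len q))
    simpa [Module.End.mul_apply] using this
  p2 q x t h := by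
    rw [Module.End.mul_apply, Module.End.mul_apply, hB.p2 q x t h]
    have := ext_e (A := A * App (x :: t)) (B := App (x :: t) * A) (fun q' => by
        rw [Module.End.mul_apply, Module.End.mul_apply, App_e]
        exact hA.p2 q' x t h)
    have := LinearMap.congr_fun this (B (e q))
    simpa [Module.End.mul_apply] using this

theorem Nice.gen {n : ℕ} {F : Set L} {r s : List L} {a b : L} (hl : r.length = s.length)
    (hab : a < b) (hn : r.length < n) (hs : ∀ x ∈ s, x ∈ F) (hr : ∀ x ∈ r, x ∈ F)
    (ha : a ∈ F) (hb : b ∈ F) (c : ℤ) :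
    Nice n F (1 + c • E (r ++ [a]) (s ++ [b]) : EE L) := by
  have key : ∀ q, (1 + c • E (r ++ [a]) (s ++ [b]) : EE L) (e q) =
      e q + c • E (r ++ [a]) (s ++ [b]) (e q) := by
    intro q
    simp [LinearMap.add_apply]
  refine ⟨fun q => ?_, fun q => ?_, fun q t h => ?_, fun q x t h => ?_⟩
  · rw [key]
    refine add_mem (e_mem ⟨rfl, fun x hx => Or.inr hx⟩) (Submodule.smul_mem _ _ ?_)
    by_cases hq : (r ++ [a]) <+: q
    · obtain ⟨t, rfl⟩ := hq
      rw [E_append]
      apply e_mem
      refine ⟨by simp [hl], fun x hx => ?_⟩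
      simp only [List.append_assoc, List.mem_append, List.mem_cons, List.not_mem_nil,
        or_false] at hx ⊢
      rcases hx with hx | rfl | hx
      · exact Or.inl (hs x hx)
      · exact Or.inl hb
      · exact Or.inr (Or.inr (Or.inr hx))
    · rw [E_zero hq]; exact zero_mem _
  · rw [key, add_sub_cancel_left]
    refine Submodule.smul_mem _ _ ?_
    by_cases hq : (r ++ [a]) <+: q
    · obtain ⟨t, rfl⟩ := hq
      rw [E_append]
      apply e_mem
      simpa using clt_append t hl hab
    · rw [E_zero hq]; exact zero_mem _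
  · rw [key, key, E_app_of_length t (by simp; omega)]
    simp
  · rw [key, key, E_app_of_not_mem t]
    · simp
    · intro hx
      apply h
      simp only [List.mem_append, List.mem_cons, List.not_mem_nil, or_false] at hx
      rcases hx with hx | rfl
      · exact hr x hx
      · exact ha

/-- The generators of level at most `n` with letters in `F`. -/
def Gen (n : ℕ) (F : Set L) : Set (EE L)ˣ :=
  {g | ∃ (r s : List L) (a b : L), r.length = s.length ∧ a < b ∧ r.length < n ∧
    (∀ x ∈ r, x ∈ F) ∧ (∀ x ∈ s, x ∈ F) ∧ a ∈ F ∧ b ∈ F ∧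
    g = Xu (E (r ++ [a]) (s ++ [b]))}

/-- The group generated by the generators of level at most `n` with letters in `F`. -/
noncomputable def Gn (n : ℕ) (F : Set L) : Subgroup (EE L)ˣ := Subgroup.closure (Gen n F)

theorem Gn_mono {n n' : ℕ} {F F' : Set L} (hn : n ≤ n') (hF : F ⊆ F') : Gn n F ≤ Gn n' F' := by
  apply Subgroup.closure_mono
  rintro g ⟨r, s, a, b, h1, h2, h3, h4, h5, h6, h7, rfl⟩
  exact ⟨r, s, a, b, h1, h2, by omega, fun x hx => hF (h4 x hx), fun x hx => hF (h5 x hx),
    hF h6, hF h7, rfl⟩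

theorem nice_of_mem_aux {n : ℕ} {F : Set L} {g : (EE L)ˣ} (hg : g ∈ Gn n F) :
    Nice n F (g : EE L) ∧ Nice n F ((g⁻¹ : (EE L)ˣ) : EE L) := by
  induction hg using Subgroup.closure_induction with
  | mem g hg =>
    obtain ⟨r, s, a, b, h1, h2, h3, h4, h5, h6, h7, rfl⟩ := hg
    have hsq : E (r ++ [a]) (s ++ [b]) * E (r ++ [a]) (s ++ [b]) = 0 := E_sq h1 h2.ne
    rw [Xu_val hsq, Xu_inv_val hsq]
    refine ⟨?_, ?_⟩
    · simpa using Nice.gen h1 h2 h3 h5 h4 h6 h7 1
    · simpa [sub_eq_add_neg] using Nice.gen h1 h2 h3 h5 h4 h6 h7 (-1)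
  | one => simpa using Nice.one n F
  | mul x y _ _ hx hy =>
    rw [mul_inv_rev, Units.val_mul, Units.val_mul]
    exact ⟨hx.1.mul hy.1, hy.2.mul hx.2⟩
  | inv x _ hx => exact ⟨hx.2, by simpa using hx.1⟩

theorem nice_of_mem {n : ℕ} {F : Set L} {g : (EE L)ˣ} (hg : g ∈ Gn n F) :
    Nice n F (g : EE L) := (nice_of_mem_aux hg).1

/-- The big group. -/
noncomputable def GG (L : Type u) [LinearOrder L] : Subgroup (EE L)ˣ := ⨆ n, Gn n (Set.univ : Set L)

/-- `Gn n F ≤ GG`. -/
theorem Gn_le_GG (n : ℕ) (F : Set L) : Gn n F ≤ GG L :=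
  (Gn_mono le_rfl (Set.subset_univ F)).trans (le_iSup (fun n => Gn n (Set.univ : Set L)) n)

theorem exists_finite_of_mem {n : ℕ} {F : Set L} {g : (EE L)ˣ} (hg : g ∈ Gn n F) :
    ∃ F' : Finset L, (F' : Set L) ⊆ F ∧ g ∈ Gn n (F' : Set L) := by
  classical
  induction hg using Subgroup.closure_induction with
  | mem g hg =>
    obtain ⟨r, s, a, b, h1, h2, h3, h4, h5, h6, h7, rfl⟩ := hg
    refine ⟨r.toFinset ∪ s.toFinset ∪ {a, b}, ?_, ?_⟩
    · intro x hx
      simp only [Finset.coe_union, List.coe_toFinset, Finset.coe_insert, Finset.coe_singleton,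
        Set.mem_union, Set.mem_ofPred_eq, Set.mem_insert_iff, Set.mem_singleton_iff] at hx
      rcases hx with (hx | hx) | rfl | rfl
      · exact h4 x hx
      · exact h5 x hx
      · exact h6
      · exact h7
    · apply Subgroup.subset_closure
      refine ⟨r, s, a, b, h1, h2, h3, ?_, ?_, ?_, ?_, rfl⟩
      · intro x hx; simp [hx]
      · intro x hx; simp [hx]
      · simp
      · simp
  | one => exact ⟨∅, by simp, one_mem _⟩
  | mul x y _ _ hx hy =>
    obtain ⟨F1, hF1, hx1⟩ := hx
    obtain ⟨F2, hF2, hx2⟩ := hy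
    refine ⟨F1 ∪ F2, by simp [hF1, hF2], ?_⟩
    exact mul_mem (Gn_mono le_rfl (by simp) hx1) (Gn_mono le_rfl (by simp) hx2)
  | inv x _ hx =>
    obtain ⟨F1, hF1, hx1⟩ := hx
    exact ⟨F1, hF1, inv_mem hx1⟩

theorem exists_level_of_mem {g : (EE L)ˣ} (hg : g ∈ GG L) :
    ∃ (n : ℕ) (F : Finset L), g ∈ Gn n (F : Set L) := by
  have hd : Directed (· ≤ ·) (fun n : ℕ => Gn n (Set.univ : Set L)) := by
    apply Monotone.directed_le
    intro n n' h
    exact Gn_mono h le_rfl
  rw [GG, Subgroup.mem_iSup_of_directed hd] at hg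
  obtain ⟨n, hn⟩ := hg
  obtain ⟨F, -, hF⟩ := exists_finite_of_mem hn
  exact ⟨n, F, hF⟩

/-- If `g` fixes all short lists then it is trivial. -/
theorem eq_one_of_fix {n : ℕ} {F : Set L} {g : (EE L)ˣ} (hg : g ∈ Gn n F)
    (h : ∀ q : List L, q.length ≤ n → (g : EE L) (e q) = e q) : g = 1 := by
  apply Units.ext
  apply ext_e
  intro q
  by_cases hq : q.length ≤ n
  · simpa using h q hq
  · have h1 : q = q.take n ++ q.drop n := by simp
    have h2 : (q.take n).length = n := by simp; omega
    rw [h1, (nice_of_mem hg).p1 _ _ h2.ge, h _ h2.le]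
    simp

omit [LinearOrder L] in
theorem finite_lists {F : Set L} (hF : F.Finite) (m : ℕ) :
    {q : List L | q.length = m ∧ ∀ x ∈ q, x ∈ F}.Finite := by
  induction m with
  | zero =>
    apply (Set.finite_singleton ([] : List L)).subset
    rintro q ⟨hq, -⟩
    simpa using List.length_eq_zero_iff.1 hq
  | succ m ih =>
    apply ((hF.prod ih).image (fun p : L × List L => p.1 :: p.2)).subset
    rintro q ⟨hq, hq'⟩
    cases q with
    | nil => simp at hq
    | cons x q =>
      refine ⟨(x, q), ⟨hq' x (by simp), by simpa using hq, fun y hy => hq' y (by simp [hy])⟩, rfl⟩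

/-- If `g` fixes all lists of length `< m` then only finitely many lists of length `m` move. -/
theorem finite_moved {n m : ℕ} {F : Set L} (hF : F.Finite) {g : (EE L)ˣ} (hg : g ∈ Gn n F)
    (h : ∀ q : List L, q.length < m → (g : EE L) (e q) = e q) :
    {q : List L | q.length = m ∧ (g : EE L) (e q) ≠ e q}.Finite := by
  apply (finite_lists hF m).subset
  rintro q ⟨hq, hq'⟩
  refine ⟨hq, fun x hx => ?_⟩
  by_contra hxF
  apply hq'
  obtain ⟨p, t, rfl⟩ := List.append_of_mem hx
  rw [(nice_of_mem hg).p2 p x t hxF, h p (by simp at hq; omega)]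
  simp

theorem exists_top_moved {n m : ℕ} {F : Set L} (hF : F.Finite) {g : (EE L)ˣ} (hg : g ∈ Gn n F)
    (h : ∀ q : List L, q.length < m → (g : EE L) (e q) = e q)
    (hne : ∃ q : List L, q.length = m ∧ (g : EE L) (e q) ≠ e q) :
    ∃ i : List L, i.length = m ∧ (g : EE L) (e i) ≠ e i ∧
      ∀ q : List L, clt i q → (g : EE L) (e q) = e q := by
  obtain ⟨i, hi, hmax⟩ := exists_clt_max _ (finite_moved hF hg h) hne m (fun q hq => hq.1)
  refine ⟨i, hi.1, hi.2, fun q hq => ?_⟩
  by_contra h'
  exact hmax q ⟨(clt_length hq).trans hi.1, h'⟩ hq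

end Pool.Agent.W_MP_f46629_al.H89
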