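import Pool.Agent.W_MP_f46629_al.H89_Grp

/-!
Local nilpotency and torsion-freeness.
-/

namespace Pool.Agent.W_MP_f46629_al.H89

universe u

variable {L : Type u} [LinearOrder L]

/-- position of `x` in `F` -/
def pos (F : Finset L) (x : L) : ℕ := (F.filter (· < x)).card

theorem pos_lt_card {F : Finset L} {x : L} (hx : x ∈ F) : pos F x < F.card := by
  apply Finset.card_lt_card
  rw [Finset.ssubset_iff_of_subset (Finset.filter_subset _ _)]
  exact ⟨x, hx, by simp⟩

theorem pos_lt_pos {F : Finset L} {x y : L} (hx : x ∈ F) (h : x < y) : pos F x < pos F y := by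
  apply Finset.card_lt_card
  rw [Finset.ssubset_iff_of_subset]
  · exact ⟨x, by simp [hx, h], by simp⟩
  · intro z hz
    simp only [Finset.mem_filter] at hz ⊢
    exact ⟨hz.1, hz.2.trans h⟩

/-- height function -/
def ht (F : Finset L) : ℕ → List L → ℕ
  | 0, _ => 0
  | _ + 1, [] => 0
  | n + 1, x :: q => if x ∈ F then pos F x + F.card * ht F n q else 0

theorem ht_bound (F : Finset L) (n : ℕ) : ∃ B, ∀ q, ht F n q ≤ B := by
  induction n with
  | zero => exact ⟨0, fun q => by simp [ht]⟩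
  | succ n ih =>
    obtain ⟨B, hB⟩ := ih
    refine ⟨F.card + F.card * B, fun q => ?_⟩
    cases q with
    | nil => simp [ht]
    | cons x q =>
      simp only [ht]
      split_ifs with hx
      · exact Nat.add_le_add (pos_lt_card hx).le (Nat.mul_le_mul_left _ (hB q))
      · exact Nat.zero_le _

theorem ht_step {F : Finset L} : ∀ {r s : List L} {a b : L} {n : ℕ} (t : List L),
    r.length = s.length → a < b → r.length < n → (∀ x ∈ r, x ∈ F) → (∀ x ∈ s, x ∈ F) →
    a ∈ F → b ∈ F → ht F n (r ++ a :: t) + 1 ≤ ht F n (s ++ b :: t)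
  | [], [], a, b, 0, t, _, _, hn, _, _, _, _ => by simp at hn
  | [], [], a, b, n + 1, t, _, h, _, _, _, ha, hb => by
    simp only [List.nil_append, ht, ha, hb, if_true]
    have := pos_lt_pos ha h
    omega
  | [], _ :: _, _, _, _, _, h, _, _, _, _, _, _ => by simp at h
  | _ :: _, [], _, _, _, _, h, _, _, _, _, _, _ => by simp at h
  | x :: r, y :: s, a, b, 0, t, _, _, hn, _, _, _, _ => by simp at hn
  | x :: r, y :: s, a, b, n + 1, t, hl, h, hn, hr, hs, ha, hb => by
    have ih := ht_step (F := F) (r := r) (s := s) (n := n) t (by simpa using hl) h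
      (by simpa using hn) (fun z hz => hr z (by simp [hz])) (fun z hz => hs z (by simp [hz])) ha hb
    have hx : x ∈ F := hr x (by simp)
    have hy : y ∈ F := hs y (by simp)
    simp only [List.cons_append, ht, hx, hy, if_true]
    have h1 := pos_lt_card hx
    have h2 : F.card * (ht F n (r ++ a :: t) + 1) ≤ F.card * ht F n (s ++ b :: t) :=
      Nat.mul_le_mul_left _ ih
    rw [Nat.mul_add] at h2
    omega

/-- weight filtration -/
def Wt (F : Finset L) (n i : ℕ) (A : EE L) : Prop :=
  ∀ q, A (e q) ∈ Finsupp.supported ℤ ℤ {q' : List L | ht F n q + i ≤ ht F n q'}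

theorem Wt.mono {F : Finset L} {n i j : ℕ} {A : EE L} (h : Wt F n i A) (hij : j ≤ i) :
    Wt F n j A := fun q =>
  Finsupp.supported_mono (fun q' hq' => by
    simp only [Set.mem_ofPred_eq] at hq' ⊢; omega) (h q)

theorem Wt.add {F : Finset L} {n i : ℕ} {A B : EE L} (hA : Wt F n i A) (hB : Wt F n i B) :
    Wt F n i (A + B) := fun q => by
  rw [LinearMap.add_apply]; exact add_mem (hA q) (hB q)

theorem Wt.neg {F : Finset L} {n i : ℕ} {A : EE L} (hA : Wt F n i A) :
    Wt F n i (-A) := fun q => by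
  rw [LinearMap.neg_apply]; exact neg_mem (hA q)

theorem Wt.sub {F : Finset L} {n i : ℕ} {A B : EE L} (hA : Wt F n i A) (hB : Wt F n i B) :
    Wt F n i (A - B) := by
  rw [sub_eq_add_neg]; exact hA.add hB.neg

theorem Wt.one (F : Finset L) (n : ℕ) : Wt F n 0 (1 : EE L) := fun q => by
  apply e_mem; simp

theorem Wt.zero (F : Finset L) (n i : ℕ) : Wt F n i (0 : EE L) := fun q => by
  simp

theorem Wt.mul {F : Finset L} {n i j : ℕ} {A B : EE L} (hA : Wt F n i A) (hB : Wt F n j B) :
    Wt F n (i + j) (A * B) := fun q => by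
  rw [Module.End.mul_apply]
  apply map_supported (A := A) _ _ (hB q)
  intro q' hq'
  apply Finsupp.supported_mono _ (hA q')
  intro q'' hq''
  simp only [Set.mem_ofPred_eq] at hq' hq'' ⊢
  omega

theorem Wt.eq_zero {F : Finset L} {n i : ℕ} {A : EE L} (hA : Wt F n i A)
    (hi : ∀ q, ht F n q < i) : A = 0 := by
  apply ext_e
  intro q
  have h := hA q
  have : {q' : List L | ht F n q + i ≤ ht F n q'} = ∅ := by
    ext q'
    simp only [Set.mem_ofPred_eq, Set.mem_empty_iff_false, iff_false, not_le]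
    have := hi q'
    omega
  rw [this] at h
  simpa using h

theorem Wt.pow {F : Finset L} {n : ℕ} {A : EE L} (hA : Wt F n 1 A) (k : ℕ) :
    Wt F n k (A ^ k) := by
  induction k with
  | zero => simpa using Wt.one F n
  | succ k ih => rw [pow_succ]; exact ih.mul hA

theorem Wt.E {F : Finset L} {n : ℕ} {r s : List L} {a b : L} (hl : r.length = s.length)
    (hab : a < b) (hn : r.length < n) (hr : ∀ x ∈ r, x ∈ F) (hs : ∀ x ∈ s, x ∈ F)
    (ha : a ∈ F) (hb : b ∈ F) : Wt F n 1 (H89.E (r ++ [a]) (s ++ [b])) := fun q => by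
  by_cases hq : (r ++ [a]) <+: q
  · obtain ⟨t, rfl⟩ := hq
    rw [E_append]
    apply e_mem
    simpa using ht_step t hl hab hn hr hs ha hb
  · rw [E_zero hq]; exact zero_mem _

theorem wt_of_mem {F : Finset L} {n : ℕ} {g : (EE L)ˣ} (hg : g ∈ Gn n (F : Set L)) :
    Wt F n 1 ((g : EE L) - 1) ∧ Wt F n 1 (((g⁻¹ : (EE L)ˣ) : EE L) - 1) := by
  induction hg using Subgroup.closure_induction with
  | mem g hg =>
    obtain ⟨r, s, a, b, h1, h2, h3, h4, h5, h6, h7, rfl⟩ := hg
    have hsq : H89.E (r ++ [a]) (s ++ [b]) * H89.E (r ++ [a]) (s ++ [b]) = 0 := E_sq h1 h2.ne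
    rw [Xu_val hsq, Xu_inv_val hsq]
    have := Wt.E (F := F) (n := n) h1 h2 h3 h4 h5 h6 h7
    refine ⟨by simpa using this, ?_⟩
    have h8 : (1 - H89.E (r ++ [a]) (s ++ [b]) - 1 : EE L) = - H89.E (r ++ [a]) (s ++ [b]) := by
      abel
    rw [h8]
    exact this.neg
  | one => simpa using Wt.zero F n 1
  | mul x y _ _ hx hy =>
    rw [mul_inv_rev, Units.val_mul, Units.val_mul]
    constructor
    · have : (x : EE L) * (y : EE L) - 1 =
          ((x : EE L) - 1) * ((y : EE L) - 1) + (((x : EE L) - 1) + ((y : EE L) - 1)) := by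
        noncomm_ring
      rw [this]
      exact ((hx.1.mul hy.1).mono (by norm_num)).add (hx.1.add hy.1)
    · generalize ((y⁻¹ : (EE L)ˣ) : EE L) = y' at *
      generalize ((x⁻¹ : (EE L)ˣ) : EE L) = x' at *
      have : y' * x' - 1 =
          (y' - 1) * (x' - 1) + ((y' - 1) + (x' - 1)) := by
        noncomm_ring
      rw [this]
      exact ((hy.2.mul hx.2).mono (by norm_num)).add (hy.2.add hx.2)
  | inv x _ hx => exact ⟨hx.2, by simpa using hx.1⟩

/-- the members of the descending central series -/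
def Hs (F : Finset L) (n i : ℕ) : Subgroup (Gn n (F : Set L)) where
  carrier := {g | Wt F n (i + 1) (((g : (EE L)ˣ) : EE L) - 1)}
  one_mem' := by simpa using Wt.zero F n (i + 1)
  mul_mem' := by
    intro x y hx hy
    simp only [Set.mem_ofPred_eq, Subgroup.coe_mul, Units.val_mul] at hx hy ⊢
    have : ((x : (EE L)ˣ) : EE L) * ((y : (EE L)ˣ) : EE L) - 1 =
          (((x : (EE L)ˣ) : EE L) - 1) * (((y : (EE L)ˣ) : EE L) - 1) +
          ((((x : (EE L)ˣ) : EE L) - 1) + (((y : (EE L)ˣ) : EE L) - 1)) := by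
        noncomm_ring
    rw [this]
    exact ((hx.mul hy).mono (by omega)).add (hx.add hy)
  inv_mem' := by
    intro x hx
    simp only [Set.mem_ofPred_eq, Subgroup.coe_inv] at hx ⊢
    have h0 : Wt F n 0 ((((x : (EE L)ˣ)⁻¹ : (EE L)ˣ)) : EE L) := by
      have h1 := (wt_of_mem x.2).2.mono (Nat.zero_le 1)
      have h2 := h1.add (Wt.one F n)
      simpa using h2
    have : ((((x : (EE L)ˣ)⁻¹ : (EE L)ˣ)) : EE L) - 1 =
        - (((((x : (EE L)ˣ)⁻¹ : (EE L)ˣ)) : EE L) * (((x : (EE L)ˣ) : EE L) - 1)) := by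
      rw [mul_sub, Units.inv_mul, mul_one]; abel
    rw [this]
    have := (h0.mul hx).neg
    simpa using this

theorem comm_identity {R : Type*} [Ring R] {x g x' g' : R} (hx : x * x' = 1) (hg : g * g' = 1) :
    x * g * x' * g' - 1 = ((x - 1) * (g - 1) - (g - 1) * (x - 1)) * (x' * g') := by
  have h2 : (x - 1) * (g - 1) - (g - 1) * (x - 1) = x * g - g * x := by noncomm_ring
  rw [h2, sub_mul]
  have h3 : g * x * (x' * g') = 1 := by
    rw [mul_assoc, ← mul_assoc x, hx, one_mul, hg]
  rw [h3]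
  simp only [mul_assoc]

theorem Gn_nilpotent (F : Finset L) (n : ℕ) : Group.IsNilpotent (Gn n (F : Set L)) := by
  obtain ⟨B, hB⟩ := ht_bound F n
  rw [Subgroup.nilpotent_iff_finite_descending_central_series]
  refine ⟨B, Hs F n, ⟨?_, ?_⟩, ?_⟩
  · rw [eq_top_iff]
    intro x _
    exact (wt_of_mem x.2).1
  · intro x i hx g
    rw [commutatorElement_def]
    obtain ⟨x, hxm⟩ := x
    obtain ⟨g, hgm⟩ := g
    have hx' : Wt F n (i + 1) ((x : EE L) - 1) := hx
    have hg' : Wt F n 1 ((g : EE L) - 1) := (wt_of_mem hgm).1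
    have h0 : ∀ y : (EE L)ˣ, y ∈ Gn n (F : Set L) → Wt F n 0 (((y⁻¹ : (EE L)ˣ)) : EE L) := by
      intro y hy
      have h1 := (wt_of_mem hy).2.mono (Nat.zero_le 1)
      have h2 := h1.add (Wt.one F n)
      simpa using h2
    have h1 := comm_identity (x := (x : EE L)) (g := (g : EE L))
      (x' := ((x⁻¹ : (EE L)ˣ) : EE L)) (g' := ((g⁻¹ : (EE L)ˣ) : EE L))
      (Units.mul_inv x) (Units.mul_inv g)
    have h4 := hx'.mul hg'
    have h5 := (hg'.mul hx').mono (show i + 1 + 1 ≤ 1 + (i + 1) by omega)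
    have h6 := (h4.sub h5).mul ((h0 x hxm).mul (h0 g hgm))
    rw [← h1] at h6
    exact h6.mono (by omega)
  · rw [eq_bot_iff]
    intro x hx
    have hx' : Wt F n (B + 1) (((x : (EE L)ˣ) : EE L) - 1) := hx
    have := hx'.eq_zero (fun q => Nat.lt_succ_of_le (hB q))
    rw [Subgroup.mem_bot]
    apply Subtype.ext
    apply Units.ext
    simpa [sub_eq_zero] using this

theorem exists_common {S : Set (EE L)ˣ} (hS : S.Finite) (h : S ⊆ GG L) :
    ∃ (n : ℕ) (F : Finset L), S ⊆ Gn n (F : Set L) := by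
  classical
  induction S, hS using Set.Finite.induction_on with
  | empty => exact ⟨0, ∅, by simp⟩
  | @insert a s _ _ ih =>
    obtain ⟨n, F, hF⟩ := ih ((Set.subset_insert _ _).trans h)
    obtain ⟨n', F', hF'⟩ := exists_level_of_mem (h (Set.mem_insert _ _))
    refine ⟨max n n', F ∪ F', ?_⟩
    intro x hx
    rcases Set.mem_insert_iff.1 hx with rfl | hx
    · exact Gn_mono (le_max_right _ _) (by simp) hF'
    · exact Gn_mono (le_max_left _ _) (by simp) (hF hx)

theorem nilpotent_of_injective {G H : Type*} [Group G] [Group H] (f : G →* H)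
    (hf : Function.Injective f) [Group.IsNilpotent H] : Group.IsNilpotent G := by
  have e' : G ≃* f.range := MonoidHom.ofInjective hf
  rw [Group.isNilpotent_congr e']
  infer_instance

/-- The group `GG` is locally nilpotent. -/
theorem GG_locally_nilpotent (K : Subgroup (GG L)) (hK : K.FG) : Group.IsNilpotent K := by
  obtain ⟨S, hS⟩ := hK
  obtain ⟨n, F, hF⟩ := exists_common (S := ((fun x : GG L => (x : (EE L)ˣ)) '' (S : Set (GG L))))
    (S.finite_toSet.image _) (by rintro _ ⟨x, -, rfl⟩; exact x.2)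
  have hle : K.map (GG L).subtype ≤ Gn n (F : Set L) := by
    rw [← hS, MonoidHom.map_closure, Subgroup.closure_le]
    exact hF
  have := Gn_nilpotent F n
  let f : K →* Gn n (F : Set L) :=
    ((GG L).subtype.comp K.subtype).codRestrict _ (fun x => hle ⟨x, x.2, rfl⟩)
  apply nilpotent_of_injective f
  intro x y hxy
  have h1 := congrArg (fun z : Gn n (F : Set L) => (z : (EE L)ˣ)) hxy
  exact Subtype.ext (Subtype.ext h1)

theorem nilp_of_mem {g : (EE L)ˣ} (hg : g ∈ GG L) : ∃ k, ((g : EE L) - 1) ^ k = 0 := by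
  obtain ⟨n, F, hF⟩ := exists_level_of_mem hg
  obtain ⟨B, hB⟩ := ht_bound F n
  refine ⟨B + 1, ?_⟩
  exact ((wt_of_mem hF).1.pow (B + 1)).eq_zero (fun q => Nat.lt_succ_of_le (hB q))

theorem one_add_pow_form {R : Type*} [Ring R] (a : R) (n : ℕ) :
    ∃ c : R, (1 + a) ^ n = 1 + (n : R) * a + a * a * c := by
  induction n with
  | zero => exact ⟨0, by simp⟩
  | succ n ih =>
    obtain ⟨c, hc⟩ := ih
    refine ⟨c + (n : R) + c * a, ?_⟩
    rw [pow_succ, hc]
    have hcomm : (n : R) * a * a = a * a * (n : R) := by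
      rw [mul_assoc, Nat.cast_comm]
    push_cast
    calc (1 + (n : R) * a + a * a * c) * (1 + a)
        = 1 + ((n : R) + 1) * a + a * a * c + (n : R) * a * a + a * a * (c * a) := by noncomm_ring
      _ = _ := by rw [hcomm]; noncomm_ring

theorem torsion_free_aux {g : (EE L)ˣ} (hg : g ∈ GG L) {n : ℕ} (hn : 0 < n) (h : g ^ n = 1) :
    g = 1 := by
  classical
  by_contra hne
  set a : EE L := (g : EE L) - 1 with ha
  have hga : (g : EE L) = 1 + a := by rw [ha]; abel
  have ha0 : a ≠ 0 := by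
    intro h0
    apply hne
    apply Units.ext
    rw [hga, h0]; simp
  have hex := nilp_of_mem hg
  have hk := Nat.find_spec hex
  set k := Nat.find hex with hkdef
  have hk2 : 2 ≤ k := by
    by_contra hlt
    push Not at hlt
    interval_cases k
    · simp only [pow_zero] at hk
      have h1 : (1 : EE L) (e []) = 0 := by rw [hk]; simp
      simp at h1
    · exact ha0 (by simpa using hk)
  have hmin : a ^ (k - 1) ≠ 0 := Nat.find_min hex (m := k - 1) (by omega)
  apply hmin
  obtain ⟨c, hc⟩ := one_add_pow_form a n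
  have h1 : (1 + a) ^ n = 1 := by
    rw [← hga, ← Units.val_pow_eq_pow_val, h]; simp
  rw [h1] at hc
  have h2 : (n : EE L) * a + a * a * c = 0 := by
    have : (1 : EE L) = 1 + ((n : EE L) * a + a * a * c) := by
      rw [← add_assoc]; exact hc
    simpa using this.symm
  have h3 : a ^ (k - 2) * ((n : EE L) * a + a * a * c) = 0 := by rw [h2, mul_zero]
  have h4 : a ^ (k - 2) * ((n : EE L) * a + a * a * c) = (n : EE L) * a ^ (k - 1) := by
    have h5 : a ^ (k - 2) * ((n : EE L) * a) = (n : EE L) * a ^ (k - 1) := by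
      rw [← mul_assoc, ← Nat.cast_comm n (a ^ (k - 2)), mul_assoc, ← pow_succ]
      congr 2
      omega
    have h6 : a ^ (k - 2) * (a * a * c) = 0 := by
      have : a ^ (k - 2) * (a * a * c) = a ^ k * c := by
        have hk3 : k = (k - 2) + 1 + 1 := by omega
        conv_rhs => rw [hk3, pow_succ, pow_succ]
        noncomm_ring
      rw [this, hk, zero_mul]
    rw [mul_add, h5, h6, add_zero]
  rw [h4] at h3
  apply ext_e
  intro q
  have h7 := LinearMap.congr_fun h3 (e q)
  rw [Module.End.mul_apply] at h7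
  have h8 : ((n : EE L)) ((a ^ (k - 1)) (e q)) = (n : ℤ) • ((a ^ (k - 1)) (e q)) := by
    simp
  rw [h8] at h7
  simp only [LinearMap.zero_apply, smul_eq_zero] at h7
  rcases h7 with h7 | h7
  · exfalso
    have : n = 0 := by exact_mod_cast h7
    omega
  · simpa using h7

theorem one_add_two_pow_form {R : Type*} [Ring R] (a : R) (k : ℕ) :
    ∃ c : R, (1 + a) ^ (2 ^ k) = 1 + a ^ (2 ^ k) + 2 * c := by
  induction k with
  | zero => exact ⟨0, by simp⟩
  | succ k ih =>
    obtain ⟨c, hc⟩ := ih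
    refine ⟨2 * c * c + a ^ (2 ^ k) + 2 * c + a ^ (2 ^ k) * c + c * a ^ (2 ^ k), ?_⟩
    rw [pow_succ 2 k, pow_mul, hc, pow_mul]
    generalize a ^ (2 ^ k) = x
    noncomm_ring

end Pool.Agent.W_MP_f46629_al.H89
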