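import Mathlib

/-!
Sections, systems, and the hereditary radical defined by them.
-/

namespace Pool.Agent.W_MP_f46629_al.H89

universe u

/-- `Q` is a section of `H`. -/
def IsSec (Q H : Type u) [Group Q] [Group H] : Prop :=
  ∃ (D : Type u) (_ : Group D) (a : D →* H) (b : D →* Q),
    Function.Surjective b ∧ ∀ d, a d = 1 → b d = 1

theorem IsSec.trans {P Q H : Type u} [Group P] [Group Q] [Group H] (h1 : IsSec P Q)
    (h2 : IsSec Q H) : IsSec P H := by
  obtain ⟨D, _, a, b, hb, hab⟩ := h1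
  obtain ⟨D', _, a', b', hb', hab'⟩ := h2
  refine ⟨MonoidHom.eqLocus (a.comp (MonoidHom.fst D D')) (b'.comp (MonoidHom.snd D D')),
    inferInstance, (a'.comp (MonoidHom.snd D D')).comp (Subgroup.subtype _),
    (b.comp (MonoidHom.fst D D')).comp (Subgroup.subtype _), ?_, ?_⟩
  · intro p
    obtain ⟨d, rfl⟩ := hb p
    obtain ⟨d', hd'⟩ := hb' (a d)
    exact ⟨⟨(d, d'), hd'.symm⟩, rfl⟩
  · rintro ⟨⟨d, d'⟩, hd⟩ h
    have h1 : a d = b' d' := hd
    have h2 : a' d' = 1 := h
    have h3 : b' d' = 1 := hab' _ h2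
    exact hab d (h1.trans h3)

theorem IsSec.of_surjective {G H : Type u} [Group G] [Group H] (f : G →* H)
    (hf : Function.Surjective f) : IsSec H G :=
  ⟨G, inferInstance, MonoidHom.id G, f, hf, fun d hd => by
    have : d = 1 := hd
    rw [this, map_one]⟩

theorem IsSec.of_injective {G H : Type u} [Group G] [Group H] (f : G →* H)
    (hf : Function.Injective f) : IsSec G H :=
  ⟨G, inferInstance, f, MonoidHom.id G, Function.surjective_id, fun d hd => by
    exact hf (hd.trans (map_one f).symm)⟩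

/-- The commutator `x y x⁻¹ y⁻¹`. -/
def cm {G : Type u} [Group G] (x y : G) : G := x * y * x⁻¹ * y⁻¹

theorem map_cm {G H : Type u} [Group G] [Group H] (f : G →* H) (x y : G) :
    f (cm x y) = cm (f x) (f y) := by
  simp [cm]

/-- A system in the group `H`, indexed by the linear order `L0`. -/
def HasSys (L0 : Type u) [LinearOrder L0] (H : Type u) [Group H] : Prop :=
  ∃ (V W : Subgroup H) (v : L0 → L0 → H), V ≤ W ∧
    (∀ w ∈ W, ∀ y ∈ V, w * y * w⁻¹ ∈ V) ∧
    (∀ α β, α < β → v α β ∈ W ∧ v α β ∉ V ∧ v α β * v α β ∈ V) ∧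
    ∀ α β γ, α < β → β < γ → cm (v β γ) (v α β) * (v α γ)⁻¹ ∈ V

theorem HasSys.of_sec {L0 : Type u} [LinearOrder L0] {Q H : Type u} [Group Q] [Group H]
    (h : HasSys L0 Q) (hs : IsSec Q H) : HasSys L0 H := by
  obtain ⟨V, W, v, hVW, hn, h1, h2⟩ := h
  obtain ⟨D, _, a, b, hb, hab⟩ := hs
  choose d hd using hb
  have hmem : ∀ x, a x ∈ (V.comap b).map a → b x ∈ V := by
    rintro x ⟨y, hy, hyx⟩
    have h3 : a (y⁻¹ * x) = 1 := by rw [map_mul, map_inv, hyx]; simp
    have h4 := hab _ h3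
    rw [map_mul, map_inv, inv_mul_eq_one] at h4
    rw [← h4]; exact hy
  have hmem' : ∀ x, b x ∈ V → a x ∈ (V.comap b).map a := fun x hx => ⟨x, hx, rfl⟩
  refine ⟨(V.comap b).map a, (W.comap b).map a, fun α β => a (d (v α β)), ?_, ?_, ?_, ?_⟩
  · exact Subgroup.map_mono (Subgroup.comap_mono hVW)
  · rintro _ ⟨x, hx, rfl⟩ _ ⟨y, hy, rfl⟩
    rw [← map_inv, ← map_mul, ← map_mul]
    apply hmem'
    rw [map_mul, map_mul, map_inv]
    exact hn _ hx _ hy
  · intro α β hαβ
    obtain ⟨h3, h4, h5⟩ := h1 α β hαβ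
    refine ⟨⟨_, ?_, rfl⟩, fun h => ?_, ?_⟩
    · change b (d (v α β)) ∈ W
      rw [hd]; exact h3
    · apply h4
      have := hmem _ h
      rwa [hd] at this
    · rw [← map_mul]
      apply hmem'
      rw [map_mul, hd]; exact h5
  · intro α β γ hαβ hβγ
    have := h2 α β γ hαβ hβγ
    rw [← map_inv, ← map_cm, ← map_mul]
    apply hmem'
    rw [map_mul, map_cm, map_inv, hd, hd, hd]
    exact this

/-- The class of nontrivial groups all of whose nontrivial subnormal subgroups have systems. -/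
def KK (L0 : Type u) [LinearOrder L0] (Q : Type u) [Group Q] : Prop :=
  Nontrivial Q ∧ ∀ L : Subgroup Q, L.IsSubnormal → L ≠ ⊥ → HasSys L0 L

theorem KK.normal {L0 : Type u} [LinearOrder L0] {Q : Type u} [Group Q] (h : KK L0 Q)
    {N : Subgroup Q} (hN : N.Normal) (hne : N ≠ ⊥) : KK L0 N := by
  refine ⟨(Subgroup.nontrivial_iff_ne_bot N).2 hne, fun L hL hL' => ?_⟩
  have h1 : (L.map N.subtype).IsSubnormal := hL.trans' hN.isSubnormal
  have h2 : L.map N.subtype ≠ ⊥ := by
    intro h3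
    apply hL'
    rwa [Subgroup.map_eq_bot_iff_of_injective _ N.subtype_injective] at h3
  have hinj : Function.Injective (N.subtype : N →* Q) := N.subtype_injective
  let eqv : L ≃* L.map N.subtype := L.equivMapOfInjective N.subtype hinj
  exact (h.2 _ h1 h2).of_sec (IsSec.of_injective eqv.symm.toMonoidHom eqv.symm.injective)

/-- The radical class: no section in `KK`. -/
def XX (L0 : Type u) [LinearOrder L0] (H : Type u) [Group H] : Prop :=
  ∀ (Q : Type u) [Group Q], IsSec Q H → ¬ KK L0 Q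

theorem XX.of_sec {L0 : Type u} [LinearOrder L0] {Q H : Type u} [Group Q] [Group H]
    (h : XX L0 H) (hs : IsSec Q H) : XX L0 Q := fun P _ hP hK => h P (hP.trans hs) hK

section join

variable {L0 : Type u} [LinearOrder L0] {G Q D : Type u} [Group G] [Group Q] [Group D]
  (a : D →* G) (b : D →* Q)

theorem join_one (hb : Function.Surjective b) (hab : ∀ d, a d = 1 → b d = 1) (hQ : KK L0 Q)
    (N : Subgroup G) (hN : N.Normal) (hX : XX L0 N) : (N.comap a).map b = ⊥ := by
  by_contra hne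
  have hnorm : ((N.comap a).map b).Normal := (hN.comap a).map b hb
  refine hX _ ?_ (hQ.normal hnorm hne)
  refine ⟨N.comap a, inferInstance, (a.comp (N.comap a).subtype).codRestrict N (fun x => x.2),
    (b.comp (N.comap a).subtype).codRestrict _ (fun x => ⟨x, x.2, rfl⟩), ?_, ?_⟩
  · rintro ⟨_, ⟨y, hy, rfl⟩⟩
    exact ⟨⟨y, hy⟩, rfl⟩
  · rintro ⟨d, hd⟩ h
    have h1 : a d = 1 := congrArg Subtype.val h
    exact Subtype.ext (hab d h1)

theorem join_two (hb : Function.Surjective b) (hQ : KK L0 Q)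
    (M N : Subgroup G) (hM : M.Normal) (hN : N.Normal) (hX : XX L0 N)
    (hMb : (M.comap a).map b = ⊥) : ((M ⊔ N).comap a).map b = ⊥ := by
  by_contra hne
  have hnorm : (((M ⊔ N).comap a).map b).Normal :=
    ((Subgroup.sup_normal M N).comap a).map b hb
  refine hX _ ?_ (hQ.normal hnorm hne)
  let D' : Subgroup (N × D) := MonoidHom.eqLocus
    (((QuotientGroup.mk' M).comp N.subtype).comp (MonoidHom.fst N D))
    (((QuotientGroup.mk' M).comp a).comp (MonoidHom.snd N D))
  have hD' : ∀ x : N × D, x ∈ D' ↔ a x.2 * (x.1 : G)⁻¹ ∈ M := by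
    intro x
    change (QuotientGroup.mk' M (x.1 : G) = QuotientGroup.mk' M (a x.2)) ↔ _
    rw [QuotientGroup.mk'_apply, QuotientGroup.mk'_apply, eq_comm, QuotientGroup.eq,
      ← hM.mem_comm_iff, ← inv_mem_iff (x := a x.2 * (x.1 : G)⁻¹)]
    simp [mul_inv_rev]
  refine ⟨D', inferInstance, (MonoidHom.fst N D).comp D'.subtype,
    ((b.comp (MonoidHom.snd N D)).comp D'.subtype).codRestrict _ (fun x => ⟨x.1.2, ?_, rfl⟩),
    ?_, ?_⟩
  · have := (hD' x.1).1 x.2
    change a x.1.2 ∈ M ⊔ N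
    have h2 : a x.1.2 = (a x.1.2 * (x.1.1 : G)⁻¹) * (x.1.1 : G) := by group
    rw [h2]
    exact mul_mem (Subgroup.mem_sup_left this) (Subgroup.mem_sup_right x.1.1.2)
  · rintro ⟨_, ⟨y, hy, rfl⟩⟩
    have hy' : a y ∈ M ⊔ N := hy
    obtain ⟨m, hm, n, hn, hmn⟩ := Subgroup.mem_sup_of_normal_left.1 hy'
    refine ⟨⟨(⟨n, hn⟩, y), (hD' _).2 ?_⟩, rfl⟩
    change a y * n⁻¹ ∈ M
    rw [← hmn]
    simpa using hm
  · rintro ⟨⟨n, d⟩, hd⟩ h
    have h1 : n = 1 := h
    have h2 := (hD' _).1 hd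
    simp only [h1, OneMemClass.coe_one, inv_one, mul_one] at h2
    have h3 : b d ∈ (M.comap a).map b := ⟨d, h2, rfl⟩
    rw [hMb] at h3
    exact Subtype.ext h3

theorem join_all (hb : Function.Surjective b) (hab : ∀ d, a d = 1 → b d = 1)
    (S : Set (Subgroup G)) (hS : ∀ N ∈ S, N.Normal ∧ XX L0 N) (hsup : sSup S = ⊤) :
    ¬ KK L0 Q := by
  classical
  intro hQ
  have key : ∀ t : Finset S, (((⨆ i ∈ t, (i : Subgroup G)).comap a).map b = ⊥) ∧
      (⨆ i ∈ t, (i : Subgroup G)).Normal := by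
    intro t
    induction t using Finset.induction_on with
    | empty =>
      refine ⟨?_, ?_⟩
      · rw [eq_bot_iff]
        rintro _ ⟨d, hd, rfl⟩
        have : a d ∈ (⊥ : Subgroup G) := by simpa using hd
        exact hab d (Subgroup.mem_bot.1 this)
      · simp only [Finset.notMem_empty, iSup_false, iSup_bot]
        exact Subgroup.normal_bot
    | insert i t hi ih =>
      have hi' := hS i.1 i.2
      rw [Finset.iSup_insert, sup_comm]
      refine ⟨join_two a b hb hQ _ _ ih.2 hi'.1 hi'.2 ih.1, ?_⟩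
      have := ih.2
      have := hi'.1
      exact Subgroup.sup_normal _ _
  have htop : (⨆ t : Finset S, ⨆ i ∈ t, (i : Subgroup G)) = ⊤ := by
    rw [← iSup_eq_iSup_finset, ← sSup_eq_iSup', hsup]
  have hnt : Nontrivial Q := hQ.1
  obtain ⟨x, hx⟩ := exists_ne (1 : Q)
  apply hx
  obtain ⟨d, rfl⟩ := hb x
  have hd : a d ∈ (⨆ t : Finset S, ⨆ i ∈ t, (i : Subgroup G)) := by rw [htop]; trivial
  rw [Subgroup.mem_iSup_of_directed] at hd
  · obtain ⟨t, ht⟩ := hd
    have h1 : b d ∈ ((⨆ i ∈ t, (i : Subgroup G)).comap a).map b := ⟨d, ht, rfl⟩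
    rw [(key t).1] at h1
    exact h1
  · apply Monotone.directed_le
    intro t t' h
    exact biSup_mono h

end join

theorem XX.join {L0 : Type u} [LinearOrder L0] {G : Type u} [Group G] (S : Set (Subgroup G))
    (hS : ∀ N ∈ S, N.Normal ∧ XX L0 N) (hsup : sSup S = ⊤) : XX L0 G := by
  rintro Q _ ⟨D, _, a, b, hb, hab⟩
  exact join_all a b hb hab S hS hsup

end Pool.Agent.W_MP_f46629_al.H89
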