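import Pool.Agent.W_MP_f46629_al.H89_Tail
import Pool.Agent.W_MP_f46629_al.H89_Nil
import Pool.Agent.W_MP_f46629_al.H89_Rad

/-!
The congruence subgroup contains no system.
-/

namespace Pool.Agent.W_MP_f46629_al.H89

universe u

open Cardinal Set

variable {L : Type u}

/-- The congruence subgroup of level `2`. -/
def R2 (L : Type u) : Subgroup (EE L)ˣ where
  carrier := {g | ∃ c : EE L, (g : EE L) = 1 + 2 * c}
  one_mem' := ⟨0, by simp⟩
  mul_mem' := by
    rintro x y ⟨c, hc⟩ ⟨d, hd⟩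
    refine ⟨c + d + 2 * (c * d), ?_⟩
    rw [Units.val_mul, hc, hd]
    have : (1 + 2 * c) * (1 + 2 * d) = 1 + 2 * (c + d + 2 * (c * d)) := by
      have h2 : c * (2 * d) = 2 * (c * d) := by
        rw [two_mul, two_mul, mul_add]
      rw [add_mul, one_mul, mul_add, mul_one, mul_assoc 2 c, h2]
      rw [mul_add, mul_add]
      abel
    exact this
  inv_mem' := by
    rintro x ⟨c, hc⟩
    refine ⟨-(((x⁻¹ : (EE L)ˣ) : EE L) * c), ?_⟩
    have h1 : ((x⁻¹ : (EE L)ˣ) : EE L) * (1 + 2 * c) = 1 := by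
      rw [← hc]; exact x.inv_mul
    have h2 : ((x⁻¹ : (EE L)ˣ) : EE L) * (2 * c) = 2 * (((x⁻¹ : (EE L)ˣ) : EE L) * c) := by
      rw [two_mul, two_mul, mul_add]
    rw [mul_add, mul_one, h2] at h1
    rw [mul_neg, ← sub_eq_add_neg, eq_sub_iff_add_eq]
    exact h1

theorem R2_conj {x g : (EE L)ˣ} (hg : g ∈ R2 L) : x * g * x⁻¹ ∈ R2 L := by
  obtain ⟨c, hc⟩ := hg
  refine ⟨(x : EE L) * c * ((x⁻¹ : (EE L)ˣ) : EE L), ?_⟩
  rw [Units.val_mul, Units.val_mul, hc, mul_add, mul_one, add_mul, x.mul_inv]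
  congr 1
  rw [two_mul, mul_add, add_mul, two_mul]

instance R2_normal : (R2 L).Normal := ⟨fun _ hg x => R2_conj hg⟩

variable [LinearOrder L]

/-- The data of the main lemma. -/
structure Setup (L : Type u) [LinearOrder L] (J : Type u) [LinearOrder J] (Q : Type u) [Group Q]
    (W : Subgroup (EE L)ˣ) (φ : W →* Q) (v : J → J → W) (n : ℕ) (F : J → J → Finset L) : Prop where
  hR : W ≤ R2 L
  hn : W ≤ Gn n Set.univ
  hF : ∀ α β, α < β → (v α β : (EE L)ˣ) ∈ Gn n (F α β : Set L)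
  ne : ∀ α β, α < β → φ (v α β) ≠ 1
  sq : ∀ α β, α < β → φ (v α β) * φ (v α β) = 1
  cm : ∀ α β γ, α < β → β < γ → H89.cm (φ (v β γ)) (φ (v α β)) = φ (v α γ)

section

variable {J : Type u} [LinearOrder J] {Q : Type u} [Group Q]
  {W : Subgroup (EE L)ˣ} {φ : W →* Q} {v : J → J → W} {n : ℕ} {F : J → J → Finset L}

/-- The elements congruent to `v o γ` for some `γ`, fixing the short lists. -/
def Cf (o : J) (φ : W →* Q) (v : J → J → W) (m : ℕ) : Set W :=
  {x | (∃ γ, o < γ ∧ φ x = φ (v o γ)) ∧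
    ∀ q : List L, q.length < m → ((x : (EE L)ˣ) : EE L) (e q) = e q}

theorem exists_m (S : Setup L J Q W φ v n F) (o : J) (ho : ∃ γ, o < γ) :
    ∃ m, (Cf o φ v m).Nonempty ∧ ¬ (Cf o φ v (m + 1)).Nonempty := by
  by_contra hcon
  push Not at hcon
  have key : ∀ m, (Cf o φ v m).Nonempty := by
    intro m
    induction m with
    | zero =>
      obtain ⟨γ, hγ⟩ := ho
      exact ⟨v o γ, ⟨γ, hγ, rfl⟩, fun q hq => absurd hq (Nat.not_lt_zero _)⟩
    | succ m ih => exact hcon m ih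
  obtain ⟨x, ⟨γ, hγ, hx⟩, hx'⟩ := key (n + 1)
  have h1 : (x : (EE L)ˣ) = 1 := eq_one_of_fix (S.hn x.2) (fun q hq => hx' q (by omega))
  have h2 : x = 1 := Subtype.ext h1
  rw [h2, map_one] at hx
  exact S.ne o γ hγ hx.symm

/-- The subgroup of the elements fixing all short lists and all lists above `i`. -/
def Pf (W : Subgroup (EE L)ˣ) (m : ℕ) (i : List L) : Subgroup W where
  carrier := {x | (∀ q : List L, q.length < m → ((x : (EE L)ˣ) : EE L) (e q) = e q) ∧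
    ∀ q : List L, clt i q → ((x : (EE L)ˣ) : EE L) (e q) = e q}
  one_mem' := ⟨fun q _ => by simp, fun q _ => by simp⟩
  mul_mem' := by
    rintro x y ⟨h1, h2⟩ ⟨h3, h4⟩
    refine ⟨fun q hq => ?_, fun q hq => ?_⟩
    · simp only [Subgroup.coe_mul, Units.val_mul, Module.End.mul_apply]
      rw [h3 q hq, h1 q hq]
    · simp only [Subgroup.coe_mul, Units.val_mul, Module.End.mul_apply]
      rw [h4 q hq, h2 q hq]
  inv_mem' := by
    rintro x ⟨h1, h2⟩
    have key : ∀ w : NN L, ((x : (EE L)ˣ) : EE L) w = w →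
        (((x⁻¹ : W) : (EE L)ˣ) : EE L) w = w := by
      intro w hw
      conv_lhs => rw [← hw]
      rw [← Module.End.mul_apply, ← Units.val_mul, ← Subgroup.coe_mul, inv_mul_cancel]
      simp
    exact ⟨fun q hq => key _ (h1 q hq), fun q hq => key _ (h2 q hq)⟩

/-- the coordinate map -/
noncomputable def pf (i : List L) (x : W) : NN L := ((x : (EE L)ˣ) : EE L) (e i) - e i

theorem exists_i [WellFoundedLT L] (S : Setup L J Q W φ v n F) (o : J) (m : ℕ)
    (hm : (Cf o φ v m).Nonempty)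
    (hm' : ¬ (Cf o φ v (m + 1)).Nonempty) :
    ∃ (i : List L), i.length = m ∧ (∃ x ∈ Pf W m i, ∃ γ, o < γ ∧ φ x = φ (v o γ)) ∧
      ∀ x ∈ Pf W m i, (∃ γ, o < γ ∧ φ x = φ (v o γ)) → pf i x ≠ 0 := by
  -- every element of `Cf o φ v m` moves something of length `m`
  have hmov : ∀ x ∈ Cf o φ v m, ∃ i : List L, i.length = m ∧
      ((x : (EE L)ˣ) : EE L) (e i) ≠ e i ∧ x ∈ Pf W m i := by
    intro x hx
    have h1 : ∃ q : List L, q.length = m ∧ ((x : (EE L)ˣ) : EE L) (e q) ≠ e q := by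
      by_contra h
      push Not at h
      apply hm'
      refine ⟨x, hx.1, fun q hq => ?_⟩
      rcases Nat.lt_succ_iff_lt_or_eq.1 hq with h2 | h2
      · exact hx.2 q h2
      · exact h q h2
    obtain ⟨n', F', hF'⟩ := exists_level_of_mem (Gn_le_GG n Set.univ (S.hn x.2))
    obtain ⟨i, hi, hi', hi''⟩ := exists_top_moved F'.finite_toSet hF' hx.2 h1
    exact ⟨i, hi, hi', hx.2, hi''⟩
  let T : Set (List L) := {i | i.length = m ∧ ∃ x ∈ Pf W m i, ∃ γ, o < γ ∧ φ x = φ (v o γ)}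
  have hT : T.Nonempty := by
    obtain ⟨x, hx⟩ := hm
    obtain ⟨i, hi, -, hi'⟩ := hmov x hx
    exact ⟨i, hi, x, hi', hx.1⟩
  obtain ⟨i, hiT, hmin⟩ := WellFounded.has_min (clt_wf (L := L)) T hT
  refine ⟨i, hiT.1, hiT.2, ?_⟩
  intro x hx hx' h0
  have hfix : ((x : (EE L)ˣ) : EE L) (e i) = e i := sub_eq_zero.1 h0
  obtain ⟨i', hi', hmv, hP⟩ := hmov x ⟨hx', hx.1⟩
  have h1 : ¬ clt i i' := fun h => hmv (hx.2 _ h)
  have h2 : i ≠ i' := fun h => hmv (h ▸ hfix)
  have h3 : clt i' i := by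
    rcases clt_tri (q := i) (q' := i') (hiT.1.trans hi'.symm) with h | h | h
    · exact absurd h h1
    · exact absurd h h2
    · exact h
  exact hmin i' ⟨hi', x, hP, hx'⟩ h3

theorem Pf_fix {m : ℕ} {i : List L} {x : W} (hx : x ∈ Pf W m i) :
    ∀ w ∈ Finsupp.supported ℤ ℤ {q : List L | q.length < m ∨ clt i q},
      ((x : (EE L)ˣ) : EE L) w = w := by
  intro w hw
  have := eq_on_supported (A := ((x : (EE L)ˣ) : EE L)) (B := 1)
    (S := {q : List L | q.length < m ∨ clt i q}) (fun q hq => by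
      rcases hq with hq | hq
      · rw [hx.1 q hq]; rfl
      · rw [hx.2 q hq]; rfl) w hw
  simpa using this

theorem pf_mem (hn : W ≤ Gn n Set.univ) (m : ℕ) (i : List L) (x : W) :
    pf i x ∈ Finsupp.supported ℤ ℤ {q : List L | q.length < m ∨ clt i q} := by
  refine Finsupp.supported_mono ?_ ((nice_of_mem (hn x.2)).up i)
  intro q hq
  exact Or.inr hq

theorem pf_mul (hn : W ≤ Gn n Set.univ) {m : ℕ} {i : List L} {x y : W} (hx : x ∈ Pf W m i) :
    pf i (x * y) = pf i x + pf i y := by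
  have h1 := Pf_fix hx _ (pf_mem hn m i y)
  have h2 : ((y : (EE L)ˣ) : EE L) (e i) = pf i y + e i := by simp [pf]
  simp only [pf, Subgroup.coe_mul, Units.val_mul, Module.End.mul_apply]
  rw [h2, map_add, h1]
  simp only [pf]
  abel

theorem pf_one (i : List L) : pf i (1 : W) = 0 := by simp [pf]

theorem pf_inv (hn : W ≤ Gn n Set.univ) {m : ℕ} {i : List L} {x : W} (hx : x ∈ Pf W m i) :
    pf i x⁻¹ = - pf i x := by
  have := pf_mul hn (y := x⁻¹) hx
  rw [mul_inv_cancel, pf_one] at this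
  rw [eq_neg_iff_add_eq_zero, add_comm]
  exact this.symm

theorem inv_supp (hn : W ≤ Gn n Set.univ) {m : ℕ} (g : W) (i q : List L)
    (hq : q.length < m ∨ clt i q) :
    (((g⁻¹ : W) : (EE L)ˣ) : EE L) (e q) ∈
      Finsupp.supported ℤ ℤ {q : List L | q.length < m ∨ clt i q} := by
  have hN := nice_of_mem (hn (g⁻¹).2)
  rcases hq with hq | hq
  · refine Finsupp.supported_mono ?_ (hN.len q)
    rintro q' ⟨hq', -⟩
    left; omega
  · have h1 := hN.up q
    have h2 : (((g⁻¹ : W) : (EE L)ˣ) : EE L) (e q) =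
      ((((g⁻¹ : W) : (EE L)ˣ) : EE L) (e q) - e q) + e q := by abel
    rw [h2]
    refine add_mem (Finsupp.supported_mono ?_ h1) (e_mem (Or.inr hq))
    intro q' hq'
    exact Or.inr (clt_trans hq hq')

theorem Pf_conj (hn : W ≤ Gn n Set.univ) {m : ℕ} {i : List L} (g : W) {x : W}
    (hx : x ∈ Pf W m i) : g * x * g⁻¹ ∈ Pf W m i := by
  have key : ∀ q : List L, (q.length < m ∨ clt i q) →
      (((g * x * g⁻¹ : W) : (EE L)ˣ) : EE L) (e q) = e q := by
    intro q hq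
    simp only [Subgroup.coe_mul, Units.val_mul, Module.End.mul_apply]
    rw [Pf_fix hx _ (inv_supp hn g i q hq)]
    rw [← Module.End.mul_apply, ← Units.val_mul, ← Subgroup.coe_mul, mul_inv_cancel]
    simp
  exact ⟨fun q hq => key q (Or.inl hq), fun q hq => key q (Or.inr hq)⟩

theorem pf_conj (hn : W ≤ Gn n Set.univ) {m : ℕ} {i : List L} (g : W) {x : W}
    (hx : x ∈ Pf W m i) : pf i (g * x * g⁻¹) = ((g : (EE L)ˣ) : EE L) (pf i x) := by
  have h1 := Pf_fix hx _ (pf_mem hn m i g⁻¹)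
  have h2 : (((g⁻¹ : W) : (EE L)ˣ) : EE L) (e i) = pf i g⁻¹ + e i := by simp [pf]
  have h3 : ((x : (EE L)ˣ) : EE L) (e i) = pf i x + e i := by simp [pf]
  have h4 : ((g : (EE L)ˣ) : EE L) (pf i g⁻¹) + ((g : (EE L)ˣ) : EE L) (e i) = e i := by
    rw [← map_add, ← h2, ← Module.End.mul_apply, ← Units.val_mul, ← Subgroup.coe_mul,
      mul_inv_cancel]
    simp
  have h5 : (((g * x * g⁻¹ : W) : (EE L)ˣ) : EE L) (e i) =
      ((g : (EE L)ˣ) : EE L) (pf i x) + e i := by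
    simp only [Subgroup.coe_mul, Units.val_mul, Module.End.mul_apply]
    rw [h2, map_add, h1, h3, map_add, map_add]
    calc _ = ((g : (EE L)ˣ) : EE L) (pf i x) + (((g : (EE L)ˣ) : EE L) (pf i g⁻¹) +
          ((g : (EE L)ˣ) : EE L) (e i)) := by abel
      _ = _ := by rw [h4]
  have h6 : pf i (g * x * g⁻¹) = (((g * x * g⁻¹ : W) : (EE L)ˣ) : EE L) (e i) - e i := rfl
  rw [h6, h5]
  abel

theorem Pf_cm (hn : W ≤ Gn n Set.univ) {m : ℕ} {i : List L} (g : W) {x : W}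
    (hx : x ∈ Pf W m i) : cm g x ∈ Pf W m i :=
  mul_mem (Pf_conj hn g hx) (inv_mem hx)

theorem pf_cm (hn : W ≤ Gn n Set.univ) {m : ℕ} {i : List L} (g : W) {x : W}
    (hx : x ∈ Pf W m i) : pf i (cm g x) = (((g : (EE L)ˣ) : EE L) - 1) (pf i x) := by
  have h1 : pf i (cm g x) = pf i (g * x * g⁻¹ * x⁻¹) := rfl
  rw [h1, pf_mul hn (Pf_conj hn g hx), pf_conj hn g hx, pf_inv hn hx]
  simp [sub_eq_add_neg]

end

end Pool.Agent.W_MP_f46629_al.H89
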