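import Pool.Agent.W_MP_f46629_al.H89_Fin

/-!
The congruence subgroup contains no system.
-/

namespace Pool.Agent.W_MP_f46629_al.H89

universe u

open Cardinal Set

variable {L : Type u} [LinearOrder L]

/-- The congruence subgroup of `GG L`. -/
noncomputable def RR (L : Type u) [LinearOrder L] : Subgroup (GG L) := (R2 L).subgroupOf (GG L)

theorem R_no_sys [WellFoundedLT L] {L0 : Type u} [LinearOrder L0] [WellFoundedLT L0]
    (hL0 : 2 ^ (bw : Cardinal.{u}) < #L0) : ¬ HasSys L0 (RR L) := by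
  classical
  rintro ⟨V, W, v, hVW, hnorm, hv, hcm⟩
  let ι : RR L →* (EE L)ˣ := (GG L).subtype.comp (RR L).subtype
  have hι : Function.Injective ι :=
    (GG L).subtype_injective.comp (RR L).subtype_injective
  have hex : ∀ α β : L0, ∃ (n : ℕ) (F : Finset L), ι (v α β) ∈ Gn n (F : Set L) :=
    fun α β => exists_level_of_mem (v α β).1.2
  choose n F hF using hex
  -- make the level constant
  let f : Finset L0 → ULift.{u} ℕ := fun b =>
    if h : b.Nonempty then ⟨n (b.min' h) (b.max' h)⟩ else ⟨0⟩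
  obtain ⟨H, a, hH, ha⟩ := erdos_rado 1 bw aleph0_le_bw (I := L0) (C := ULift.{u} ℕ)
    ((by simp : #(ULift.{u} ℕ) ≤ ℵ₀).trans aleph0_le_bw) hL0 f
  have hconst : ∀ α ∈ H, ∀ β ∈ H, α < β → n α β = a.down := by
    intro α hα β hβ hαβ
    have h1 : f {α, β} = a := by
      apply ha
      · intro x hx
        simp only [Finset.coe_insert, Finset.coe_singleton, mem_insert_iff,
          mem_singleton_iff] at hx
        rcases hx with rfl | rfl
        · exact hα
        · exact hβ
      · rw [Finset.card_pair hαβ.ne]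
    have hne : ({α, β} : Finset L0).Nonempty := by simp
    have h2 : ({α, β} : Finset L0).min' hne = α := by
      apply le_antisymm
      · exact Finset.min'_le _ _ (by simp)
      · apply Finset.le_min'
        intro y hy
        simp only [Finset.mem_insert, Finset.mem_singleton] at hy
        rcases hy with rfl | rfl
        · exact le_rfl
        · exact hαβ.le
    have h3 : ({α, β} : Finset L0).max' hne = β := by
      apply le_antisymm
      · apply Finset.max'_le
        intro y hy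
        simp only [Finset.mem_insert, Finset.mem_singleton] at hy
        rcases hy with rfl | rfl
        · exact hαβ.le
        · exact le_rfl
      · exact Finset.le_max' _ _ (by simp)
    simp only [f, hne, dif_pos, h2, h3] at h1
    rw [← h1]
  obtain ⟨J, ⟨o, ho⟩, hJ⟩ := exists_tail (I := H) hH
  -- the quotient
  have hVn : (V.subgroupOf W).Normal := by
    refine ⟨fun y hy w => ?_⟩
    exact hnorm w w.2 y hy
  let W' : Subgroup (EE L)ˣ := (W.map ι) ⊓ Gn a.down Set.univ
  let eqv : W ≃* W.map ι := W.equivMapOfInjective ι hι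
  let ψ : W' →* W := eqv.symm.toMonoidHom.comp (Subgroup.inclusion inf_le_left)
  let φ : W' →* (W ⧸ V.subgroupOf W) := (QuotientGroup.mk' (V.subgroupOf W)).comp ψ
  have hψ : ∀ (w : RR L) (hw : w ∈ W) (hw' : ι w ∈ W'), ψ ⟨ι w, hw'⟩ = ⟨w, hw⟩ := by
    intro w hw hw'
    change eqv.symm ⟨ι w, _⟩ = _
    rw [MulEquiv.symm_apply_eq]
    rfl
  have hmemW' : ∀ x y : J, x < y → ι (v x.1.1 y.1.1) ∈ W' := by
    intro x y hxy
    refine ⟨⟨_, (hv _ _ hxy).1, rfl⟩, ?_⟩
    have h1 := hF x.1.1 y.1.1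
    rw [hconst _ x.1.2 _ y.1.2 hxy] at h1
    exact Gn_mono le_rfl (subset_univ _) h1
  let v' : J → J → W' := fun x y =>
    if h : x < y then ⟨ι (v x.1.1 y.1.1), hmemW' x y h⟩ else 1
  have hv' : ∀ (x y : J) (h : x < y), v' x y = ⟨ι (v x.1.1 y.1.1), hmemW' x y h⟩ := by
    intro x y h
    simp only [v', dif_pos h]
  have hφ : ∀ (x y : J) (h : x < y), φ (v' x y) =
      QuotientGroup.mk' (V.subgroupOf W) ⟨v x.1.1 y.1.1, (hv _ _ h).1⟩ := by
    intro x y h
    rw [hv' x y h]
    change QuotientGroup.mk' (V.subgroupOf W) (ψ _) = _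
    rw [hψ _ (hv _ _ h).1]
  have S : Setup L J (W ⧸ V.subgroupOf W) W' φ v' a.down (fun x y => F x.1.1 y.1.1) := by
    refine ⟨?_, inf_le_right, ?_, ?_, ?_, ?_⟩
    · rintro _ ⟨⟨w, -, rfl⟩, -⟩
      exact w.2
    · intro x y h
      rw [hv' x y h]
      have h1 := hF x.1.1 y.1.1
      rw [hconst _ x.1.2 _ y.1.2 h] at h1
      exact h1
    · intro x y h h1
      rw [hφ x y h, QuotientGroup.mk'_apply, QuotientGroup.eq_one_iff] at h1
      exact (hv _ _ h).2.1 h1
    · intro x y h
      rw [hφ x y h, ← map_mul, QuotientGroup.mk'_apply, QuotientGroup.eq_one_iff]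
      exact (hv _ _ h).2.2
    · intro x y z hxy hyz
      rw [hφ x y hxy, hφ y z hyz, hφ x z (hxy.trans hyz), ← map_cm, QuotientGroup.mk'_apply,
        QuotientGroup.mk'_apply, ← mul_inv_eq_one, ← QuotientGroup.mk_inv, ← QuotientGroup.mk_mul,
        QuotientGroup.eq_one_iff]
      exact hcm _ _ _ hxy hyz
  refine contra S ⟨o, ho⟩ ?_
  intro x k
  obtain ⟨y, hyJ, hxy, hbig⟩ := hJ x.1 x.2 k
  refine ⟨⟨y, hyJ⟩, hxy, hbig.trans_le ?_⟩
  apply mk_le_of_injective (f := fun w : ↥(J ∩ Ioo x.1 y) =>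
    (⟨⟨w.1, w.2.1⟩, w.2.2.1, w.2.2.2⟩ : Ioo x ⟨y, hyJ⟩))
  intro w w' hww
  apply Subtype.ext
  exact congrArg (fun z : Ioo x ⟨y, hyJ⟩ => z.1.1) hww

end Pool.Agent.W_MP_f46629_al.H89
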