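import Mathlib

/-!
Prefix rewriting operators on the free abelian group on lists.
-/

namespace Pool.Agent.W_MP_f46629_al.H89

universe u

/-- The free abelian group on the lists over `L`. -/
abbrev NN (L : Type u) : Type u := List L →₀ ℤ

/-- Endomorphism ring. -/
abbrev EE (L : Type u) : Type u := Module.End ℤ (NN L)

/-- basis vectors -/
noncomputable abbrev e {L : Type u} (q : List L) : NN L := Finsupp.single q (1 : ℤ)

section basics

variable {L : Type u}

theorem ext_e {A B : EE L} (h : ∀ q, A (e q) = B (e q)) : A = B := by
  apply Finsupp.lhom_ext'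
  intro q
  apply LinearMap.ext_ring
  simpa using h q

theorem e_mem {S : Set (List L)} {q : List L} (h : q ∈ S) :
    e q ∈ Finsupp.supported ℤ ℤ S := Finsupp.single_mem_supported ℤ _ h

theorem map_supported {A : EE L} {S S' : Set (List L)}
    (h : ∀ q ∈ S, A (e q) ∈ Finsupp.supported ℤ ℤ S') :
    ∀ v ∈ Finsupp.supported ℤ ℤ S, A v ∈ Finsupp.supported ℤ ℤ S' := by
  intro v hv
  rw [Finsupp.supported_eq_span_single] at hv
  induction hv using Submodule.span_induction with
  | mem x hx =>
    obtain ⟨q, hq, rfl⟩ := hx
    exact h q hq
  | zero => simp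
  | add x y _ _ hx hy => rw [map_add]; exact add_mem hx hy
  | smul c x _ hx => rw [map_smul]; exact Submodule.smul_mem _ _ hx

theorem eq_on_supported {A B : EE L} {S : Set (List L)}
    (h : ∀ q ∈ S, A (e q) = B (e q)) :
    ∀ v ∈ Finsupp.supported ℤ ℤ S, A v = B v := by
  intro v hv
  rw [Finsupp.supported_eq_span_single] at hv
  induction hv using Submodule.span_induction with
  | mem x hx =>
    obtain ⟨q, hq, rfl⟩ := hx
    exact h q hq
  | zero => simp
  | add x y _ _ hx hy => rw [map_add, map_add, hx, hy]
  | smul c x _ hx => rw [map_smul, map_smul, hx]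

/-- appending a fixed list at the end -/
noncomputable def App (t : List L) : EE L := Finsupp.lmapDomain ℤ ℤ (fun q => q ++ t)

@[simp] theorem App_e (t q : List L) : App t (e q) = e (q ++ t) := by
  simp [App, Finsupp.mapDomain_single]

open Classical in
/-- The prefix rewriting operator: `r ++ t ↦ s ++ t`, everything else goes to `0`. -/
noncomputable def E (r s : List L) : EE L :=
  Finsupp.linearCombination ℤ
    (fun q : List L => if r <+: q then e (s ++ q.drop r.length) else 0)

theorem E_append (r s t : List L) : E r s (e (r ++ t)) = e (s ++ t) := by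
  simp [E]

theorem E_zero {r s q : List L} (h : ¬ r <+: q) : E r s (e q) = 0 := by
  simp [E, h]

theorem E_self (r s : List L) : E r s (e r) = e s := by
  simpa using E_append r s []

/-- The unit `1 + a` for `a` of square zero. -/
noncomputable def Xu (a : EE L) : (EE L)ˣ := by
  classical
  exact if h : a * a = 0 then ⟨1 + a, 1 - a, by
      have : (1 + a) * (1 - a) = 1 - a * a := by noncomm_ring
      rw [this, h, sub_zero], by
      have : (1 - a) * (1 + a) = 1 - a * a := by noncomm_ring
      rw [this, h, sub_zero]⟩ else 1

theorem Xu_val {a : EE L} (h : a * a = 0) : ((Xu a : (EE L)ˣ) : EE L) = 1 + a := by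
  simp [Xu, h]

theorem Xu_inv_val {a : EE L} (h : a * a = 0) : (((Xu a)⁻¹ : (EE L)ˣ) : EE L) = 1 - a := by
  simp [Xu, h]

theorem E_mul_zero {r s r' s' : List L} (h : ∀ t, ¬ r <+: s' ++ t) :
    E r s * E r' s' = 0 := by
  apply ext_e
  intro q
  by_cases hq : r' <+: q
  · obtain ⟨t, rfl⟩ := hq
    simp only [Module.End.mul_apply, E_append, LinearMap.zero_apply]
    exact E_zero (h t)
  · simp [Module.End.mul_apply, E_zero hq]

theorem not_prefix_of {r s : List L} {a b : L} (hl : r.length = s.length) (hab : a ≠ b)
    (t : List L) : ¬ (r ++ [a]) <+: (s ++ [b]) ++ t := by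
  rintro ⟨t', ht'⟩
  have h1 : r ++ ([a] ++ t') = s ++ ([b] ++ t) := by simpa using ht'
  have h2 := List.append_inj h1 hl
  have := h2.2
  simp at this
  exact hab this.1

theorem E_sq {r s : List L} {a b : L} (hl : r.length = s.length) (hab : a ≠ b) :
    E (r ++ [a]) (s ++ [b]) * E (r ++ [a]) (s ++ [b]) = 0 :=
  E_mul_zero (fun t => not_prefix_of hl hab t)

end basics

section order

variable {L : Type u} [LinearOrder L]

/-- colexicographic order on lists of the same length (last letter most significant) -/
def clt : List L → List L → Prop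
  | x :: q, y :: q' => clt q q' ∨ (q = q' ∧ x < y)
  | _, _ => False

@[simp] theorem clt_cons (x y : L) (q q' : List L) :
    clt (x :: q) (y :: q') ↔ clt q q' ∨ (q = q' ∧ x < y) := by
  simp [clt]

@[simp] theorem clt_nil_left (q : List L) : ¬ clt [] q := by
  simp [clt]

@[simp] theorem clt_nil_right (q : List L) : ¬ clt q [] := by
  cases q <;> simp [clt]

theorem clt_length : ∀ {q q' : List L}, clt q q' → q'.length = q.length
  | [], _, h => absurd h (clt_nil_left _)
  | _ :: _, [], h => absurd h (clt_nil_right _)
  | x :: q, y :: q', h => by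
    rw [clt_cons] at h
    rcases h with h | h
    · simp [clt_length h]
    · simp [h.1]

theorem clt_irrefl : ∀ q : List L, ¬ clt q q
  | [] => clt_nil_left _
  | x :: q => by simp [clt_irrefl q]

theorem clt_trans : ∀ {q q' q'' : List L}, clt q q' → clt q' q'' → clt q q''
  | [], _, _, h, _ => absurd h (clt_nil_left _)
  | _ :: _, [], _, h, _ => absurd h (clt_nil_right _)
  | _ :: _, _ :: _, [], _, h => absurd h (clt_nil_right _)
  | x :: q, y :: q', z :: q'', h, h' => by
    rw [clt_cons] at h h' ⊢
    rcases h with h | ⟨rfl, h⟩
    · rcases h' with h' | ⟨rfl, h'⟩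
      · exact Or.inl (clt_trans h h')
      · exact Or.inl h
    · rcases h' with h' | ⟨rfl, h'⟩
      · exact Or.inl h'
      · exact Or.inr ⟨rfl, h.trans h'⟩

theorem clt_tri : ∀ {q q' : List L}, q.length = q'.length → clt q q' ∨ q = q' ∨ clt q' q
  | [], [], _ => Or.inr (Or.inl rfl)
  | [], _ :: _, h => by simp at h
  | _ :: _, [], h => by simp at h
  | x :: q, y :: q', h => by
    simp only [clt_cons]
    rcases clt_tri (q := q) (q' := q') (by simpa using h) with h1 | rfl | h1
    · exact Or.inl (Or.inl h1)
    · rcases lt_trichotomy x y with h2 | rfl | h2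
      · exact Or.inl (Or.inr ⟨rfl, h2⟩)
      · exact Or.inr (Or.inl rfl)
      · exact Or.inr (Or.inr (Or.inr ⟨rfl, h2⟩))
    · exact Or.inr (Or.inr (Or.inl h1))

theorem clt_append : ∀ {r s : List L} {a b : L} (t : List L), r.length = s.length → a < b →
    clt (r ++ a :: t) (s ++ b :: t)
  | [], [], a, b, t, _, h => by simp [h]
  | [], _ :: _, _, _, _, h, _ => by simp at h
  | _ :: _, [], _, _, _, h, _ => by simp at h
  | x :: r, y :: s, a, b, t, hl, h => by
    have := clt_append (r := r) (s := s) t (by simpa using hl) h
    simp [this]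

theorem clt_wf [WellFoundedLT L] : WellFounded (clt : List L → List L → Prop) := by
  have key : ∀ n : ℕ, ∀ q : List L, q.length = n → Acc clt q := by
    intro n
    induction n with
    | zero =>
      intro q hq
      obtain rfl : q = [] := List.length_eq_zero_iff.1 hq
      exact ⟨_, fun y hy => absurd hy (clt_nil_right _)⟩
    | succ n ih =>
      have step : ∀ q : List L, Acc clt q → ∀ x : L, Acc clt (x :: q) := by
        intro q hq
        induction hq with
        | intro q _ ihq =>
          intro x
          induction x using WellFoundedLT.induction with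
          | ind x ihx =>
            refine ⟨_, ?_⟩
            intro y hy
            cases y with
            | nil => exact absurd hy (clt_nil_left _)
            | cons z y =>
              rw [clt_cons] at hy
              rcases hy with hy | ⟨rfl, hy⟩
              · exact ihq y hy z
              · exact ihx z hy
      intro q hq
      cases q with
      | nil => simp at hq
      | cons x q => exact step q (ih q (by simpa using hq)) x
  exact ⟨fun q => key _ q rfl⟩

theorem exists_clt_max (S : Set (List L)) (hS : S.Finite) (hne : S.Nonempty) (m : ℕ)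
    (hm : ∀ q ∈ S, q.length = m) : ∃ i ∈ S, ∀ q ∈ S, ¬ clt i q := by
  classical
  induction S, hS using Set.Finite.induction_on with
  | empty => exact absurd hne (by simp)
  | @insert a s ha hs ih =>
    by_cases hs' : s.Nonempty
    · obtain ⟨i, hi, hmax⟩ := ih hs' (fun q hq => hm q (Set.mem_insert_of_mem _ hq))
      by_cases hia : clt i a
      · refine ⟨a, Set.mem_insert _ _, ?_⟩
        intro q hq
        rcases Set.mem_insert_iff.1 hq with rfl | hq
        · exact clt_irrefl _
        · intro h
          exact hmax q hq (clt_trans hia h)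
      · refine ⟨i, Set.mem_insert_of_mem _ hi, ?_⟩
        intro q hq
        rcases Set.mem_insert_iff.1 hq with rfl | hq
        · exact hia
        · exact hmax q hq
    · rw [Set.not_nonempty_iff_eq_empty] at hs'
      subst hs'
      refine ⟨a, Set.mem_insert _ _, ?_⟩
      intro q hq
      rcases Set.mem_insert_iff.1 hq with rfl | hq
      · exact clt_irrefl _
      · exact absurd hq (by simp)

end order

end Pool.Agent.W_MP_f46629_al.H89
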