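import Pool.Agent.W_MP_f46629_al.H89_ER

/-!
Initial segments of well orders with large tails.
-/

namespace Pool.Agent.W_MP_f46629_al.H89

universe u

open Cardinal Set

/-- The supremum of the finite iterated exponentials of `ℵ₀`. -/
noncomputable def bw : Cardinal.{u} := ⨆ k : ℕ, iexp k ℵ₀

theorem iexp_le_bw (k : ℕ) : iexp k ℵ₀ ≤ (bw : Cardinal.{u}) :=
  le_ciSup (f := fun k : ℕ => iexp k (ℵ₀ : Cardinal.{u})) (bddAbove_of_small) k

theorem iexp_lt_bw (k : ℕ) : iexp k ℵ₀ < (bw : Cardinal.{u}) :=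
  (cantor _).trans_le (iexp_le_bw (k + 1))

theorem aleph0_le_bw : ℵ₀ ≤ (bw : Cardinal.{u}) := iexp_le_bw 0

theorem exists_card_Iio {T : Type u} [LinearOrder T] [WellFoundedLT T] {κ : Cardinal.{u}}
    (h : κ < #T) : ∃ y : T, #(Iio y) = κ := by
  have h1 : κ.ord < Ordinal.type (α := T) (· < ·) := by
    by_contra hle
    rw [not_lt] at hle
    have := Ordinal.card_le_card hle
    rw [Ordinal.card_type, card_ord] at this
    exact absurd h (not_lt.2 this)
  obtain ⟨y, hy⟩ := Ordinal.typein_surj _ h1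
  refine ⟨y, ?_⟩
  have h2 : #(Iio y) = (Ordinal.typein (α := T) (· < ·) y).card := rfl
  rw [h2, hy, card_ord]

/-- An initial segment with large tails. -/
theorem exists_tail {I : Type u} [LinearOrder I] [WellFoundedLT I] (h : bw < #I) :
    ∃ J : Set I, J.Nonempty ∧ ∀ x ∈ J, ∀ k : ℕ, ∃ y ∈ J, x < y ∧
      iexp k ℵ₀ < #(↥(J ∩ Ioo x y)) := by
  set J : Set I := {x | #(Iio x) ≤ bw} with hJ
  have hJlow : ∀ x ∈ J, ∀ y, y ≤ x → y ∈ J := by
    intro x hx y hyx
    exact (mk_le_mk_of_subset (Iio_subset_Iio hyx)).trans hx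
  have hJcard : bw < #J := by
    by_cases hall : ∀ z, z ∈ J
    · have : J = Set.univ := eq_univ_of_forall hall
      rw [this, mk_univ]; exact h
    · push Not at hall
      have hmin := WellFounded.min_mem (wellFounded_lt (α := I)) {z | z ∉ J} hall
      set z := WellFounded.min (wellFounded_lt (α := I)) {z | z ∉ J} hall with hz
      have h1 : Iio z ⊆ J := by
        intro y hy
        by_contra hyJ
        exact WellFounded.not_lt_min (wellFounded_lt (α := I)) {z | z ∉ J} hyJ hy
      have h2 : bw < #(Iio z) := not_le.1 hmin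
      exact h2.trans_le (mk_le_mk_of_subset h1)
  refine ⟨J, ?_, ?_⟩
  · rw [← nonempty_coe_sort, ← mk_ne_zero_iff]
    exact (zero_le.trans_lt hJcard).ne'
  · intro x hx k
    have h1 : J ⊆ (insert x (Iio x)) ∪ (J ∩ Ioi x) := by
      intro y hy
      rcases lt_trichotomy y x with h | h | h
      · exact Or.inl (Or.inr h)
      · exact Or.inl (Or.inl h)
      · exact Or.inr ⟨hy, h⟩
    have h2 : bw < #(↥(J ∩ Ioi x)) := by
      by_contra hle
      rw [not_lt] at hle
      have h3 : #J ≤ bw := by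
        refine (mk_le_mk_of_subset h1).trans ((mk_union_le _ _).trans ?_)
        refine add_le_of_le aleph0_le_bw (mk_insert_le.trans ?_) hle
        exact add_le_of_le aleph0_le_bw hx (one_le_aleph0.trans aleph0_le_bw)
      exact absurd hJcard (not_lt.2 h3)
    obtain ⟨⟨y, hyJ, hxy⟩, hy⟩ := exists_card_Iio ((iexp_lt_bw (k + 1)).trans h2)
    refine ⟨y, hyJ, hxy, ?_⟩
    have h4 : iexp k ℵ₀ < iexp (k + 1) (ℵ₀ : Cardinal.{u}) := cantor _
    refine h4.trans_le ?_
    rw [← hy]
    apply mk_le_of_injective (f := fun w : Iio (⟨y, hyJ, hxy⟩ : ↥(J ∩ Ioi x)) =>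
      (⟨(w.1 : I), w.1.2.1, w.1.2.2, w.2⟩ : ↥(J ∩ Ioo x y)))
    intro w w' hww
    apply Subtype.ext
    apply Subtype.ext
    exact congrArg (fun z : ↥(J ∩ Ioo x y) => (z : I)) hww

/-- An infinite well order contains a strictly increasing sequence. -/
theorem exists_strictMono {H : Type u} [LinearOrder H] [WellFoundedLT H] [Infinite H] :
    ∃ f : ℕ → H, StrictMono f := by
  obtain ⟨g, hg⟩ := exists_increasing_or_nonincreasing_subseq (· < ·) (Infinite.natEmbedding H)
  rcases hg with hg | hg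
  · exact ⟨fun n => Infinite.natEmbedding H (g n), fun m n h => hg m n h⟩
  · exfalso
    have hanti : StrictAnti (fun n => Infinite.natEmbedding H (g n)) := by
      intro m n h
      refine lt_of_le_of_ne (not_lt.1 (hg m n h)) ?_
      intro h'
      have := (Infinite.natEmbedding H).injective h'
      exact absurd (g.injective this) h.ne'
    exact not_strictAnti_of_wellFoundedLT _ hanti

end Pool.Agent.W_MP_f46629_al.H89
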