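import Pool.Agent.W_MP_f46629_al.H89_Climb

/-!
The quotient of `GG L` by the congruence subgroup is in the class `KK`.
-/

namespace Pool.Agent.W_MP_f46629_al.H89

universe u

open Cardinal

variable {L0 : Type u} [LinearOrder L0]

/-- A gap of size `d` between two letters. -/
def Gap (d : ℕ) (x y : Lex (L0 × ℕ)) : Prop :=
  (ofLex x).1 < (ofLex y).1 ∨ ((ofLex x).1 = (ofLex y).1 ∧ (ofLex x).2 + d ≤ (ofLex y).2)

theorem Gap.lt {d : ℕ} (hd : 1 ≤ d) {x y : Lex (L0 × ℕ)} (h : Gap d x y) : x < y := by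
  rw [Prod.Lex.lt_iff]
  rcases h with h | ⟨h, h'⟩
  · exact Or.inl h
  · exact Or.inr ⟨h, by omega⟩

theorem Gap.split {d : ℕ} {x y : Lex (L0 × ℕ)} (h : Gap (3 * d) x y) :
    ∃ l m : Lex (L0 × ℕ), Gap d x l ∧ Gap d l m ∧ Gap d m y := by
  refine ⟨toLex ((ofLex x).1, (ofLex x).2 + d), toLex ((ofLex x).1, (ofLex x).2 + 2 * d),
    Or.inr ⟨rfl, le_rfl⟩, Or.inr ⟨rfl, ?_⟩, ?_⟩
  · simp only [ofLex_toLex]
    omega
  · rcases h with h | ⟨h, h'⟩
    · exact Or.inl h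
    · refine Or.inr ⟨h, ?_⟩
      simp only [ofLex_toLex]
      omega

theorem all_in {n : ℕ} {F : Finset (Lex (L0 × ℕ))} {g : GG (Lex (L0 × ℕ))}
    (hg : (g : (EE (Lex (L0 × ℕ)))ˣ) ∈ Gn (n + 1) (F : Set (Lex (L0 × ℕ))))
    (hR : g ∉ RR (Lex (L0 × ℕ))) {z0 : Lex (L0 × ℕ)} (hz : z0 ∉ F)
    {K : Subgroup (GG (Lex (L0 × ℕ)))} (hK : K.IsSubnormal) (hRK : RR (Lex (L0 × ℕ)) ≤ K)
    (hgK : g ∈ K) :
    ∃ d : ℕ, 1 ≤ d ∧ ∀ a b : List (Lex (L0 × ℕ)), a.length = n + 1 → b.length = n + 1 →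
      ∀ x y, Gap d x y → tv a b x y ∈ K := by
  obtain ⟨r, s1, hr, hs, hodd⟩ := exists_odd hg (fun h => hR h) (z0 := z0) (by simpa using hz)
  induction hK with
  | top => exact ⟨1, le_rfl, fun a b _ _ x y _ => Subgroup.mem_top _⟩
  | step H K hle hSub hN ih =>
    obtain ⟨d, hd, hall⟩ := ih (hRK.trans hle) (hle hgK)
    refine ⟨3 * d, by omega, fun a b ha hb x y hxy => ?_⟩
    obtain ⟨l, m, h1, h2, h3⟩ := hxy.split
    have hzl : (z0 :: List.replicate n z0).length = n + 1 := by simp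
    exact climb hg (z0 := z0) (by simpa using hz) hr hs hodd hle hN hRK hgK ha hb
      (h1.lt hd) (h2.lt hd) (h3.lt hd) (hall _ _ ha hzl _ _ h1) (hall _ _ hzl hr _ _ h2)
      (hall _ _ hs hb _ _ h3)

instance RRn (L : Type u) [LinearOrder L] : (RR L).Normal := RR_normal

theorem KK_quot [Nontrivial L0] : KK L0 (GG (Lex (L0 × ℕ)) ⧸ RR (Lex (L0 × ℕ))) := by
  classical
  have hinf : Infinite (Lex (L0 × ℕ)) := inferInstanceAs (Infinite (L0 × ℕ))
  refine ⟨?_, ?_⟩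
  · obtain ⟨x, y, hxy⟩ := exists_pair_ne L0
    rcases lt_or_gt_of_ne hxy with h | h
    · have h1 : toLex (x, 0) < toLex (y, 0) := by rw [Prod.Lex.lt_iff]; exact Or.inl h
      refine ⟨QuotientGroup.mk' _ (tv [] [] (toLex (x, 0)) (toLex (y, 0))), 1, ?_⟩
      intro h2
      rw [QuotientGroup.mk'_apply, QuotientGroup.eq_one_iff] at h2
      exact tv_not_mem rfl h1 h2
    · have h1 : toLex (y, 0) < toLex (x, 0) := by rw [Prod.Lex.lt_iff]; exact Or.inl h
      refine ⟨QuotientGroup.mk' _ (tv [] [] (toLex (y, 0)) (toLex (x, 0))), 1, ?_⟩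
      intro h2
      rw [QuotientGroup.mk'_apply, QuotientGroup.eq_one_iff] at h2
      exact tv_not_mem rfl h1 h2
  · intro Q hQ hne
    set K := Q.comap (QuotientGroup.mk' (RR (Lex (L0 × ℕ)))) with hK
    have hKs : K.IsSubnormal := hQ.comap _
    have hRK : RR (Lex (L0 × ℕ)) ≤ K := by
      intro x hx
      change QuotientGroup.mk' _ x ∈ Q
      rw [QuotientGroup.mk'_apply, (QuotientGroup.eq_one_iff x).2 hx]
      exact one_mem _
    obtain ⟨q, hq, hq1⟩ : ∃ q, q ∈ Q ∧ q ≠ 1 := by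
      obtain ⟨a, ha⟩ := Subgroup.ne_bot_iff_exists_ne_one.1 hne
      exact ⟨a.1, a.2, fun h => ha (Subtype.ext h)⟩
    obtain ⟨g, rfl⟩ := QuotientGroup.mk'_surjective _ q
    have hgR : g ∉ RR (Lex (L0 × ℕ)) := by
      intro h
      apply hq1
      rw [QuotientGroup.mk'_apply, QuotientGroup.eq_one_iff]
      exact h
    obtain ⟨n, F, hF⟩ := exists_level_of_mem g.2
    obtain ⟨z0, hz⟩ := Infinite.exists_notMem_finset F
    obtain ⟨d, hd, hall⟩ := all_in (n := n) (F := F) (g := g) (Gn_mono (Nat.le_succ n) le_rfl hF)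
      hgR hz hKs hRK hq
    set z : List (Lex (L0 × ℕ)) := List.replicate (n + 1) z0
    have hzl : z.length = n + 1 := by simp [z]
    let w : L0 → L0 → GG (Lex (L0 × ℕ)) := fun α β =>
      tv z z (toLex (α, 0)) (toLex (β, 0))
    have hw : ∀ α β, α < β → w α β ∈ K := by
      intro α β h
      exact hall z z hzl hzl _ _ (Or.inl h)
    have hlt : ∀ α β : L0, α < β → toLex (α, 0) < toLex (β, 0) := by
      intro α β h
      rw [Prod.Lex.lt_iff]; exact Or.inl h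
    let w' : L0 → L0 → Q := fun α β =>
      if h : α < β then ⟨QuotientGroup.mk' (RR (Lex (L0 × ℕ))) (w α β), hw α β h⟩ else 1
    have hw' : ∀ α β, (h : α < β) → w' α β =
        ⟨QuotientGroup.mk' (RR (Lex (L0 × ℕ))) (w α β), hw α β h⟩ := by
      intro α β h
      simp only [w', dif_pos h]
    refine ⟨⊥, ⊤, w', bot_le, ?_, ?_, ?_⟩
    · intro x _ y hy
      rw [Subgroup.mem_bot] at hy ⊢
      rw [hy]; simp
    · intro α β h
      refine ⟨Subgroup.mem_top _, ?_, ?_⟩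
      · rw [Subgroup.mem_bot, hw' α β h]
        intro h1
        have h2 : QuotientGroup.mk' (RR (Lex (L0 × ℕ))) (w α β) = 1 := congrArg Subtype.val h1
        rw [QuotientGroup.mk'_apply, QuotientGroup.eq_one_iff] at h2
        exact tv_not_mem rfl (hlt α β h) h2
      · rw [Subgroup.mem_bot, hw' α β h]
        apply Subtype.ext
        change QuotientGroup.mk' (RR (Lex (L0 × ℕ))) (w α β) *
          QuotientGroup.mk' (RR (Lex (L0 × ℕ))) (w α β) = 1
        rw [← map_mul, QuotientGroup.mk'_apply, QuotientGroup.eq_one_iff]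
        exact tv_sq rfl (hlt α β h)
    · intro α β γ h1 h2
      rw [Subgroup.mem_bot, hw' α β h1, hw' β γ h2, hw' α γ (h1.trans h2)]
      apply Subtype.ext
      have h3 : cm (QuotientGroup.mk' (RR (Lex (L0 × ℕ))) (w β γ))
          (QuotientGroup.mk' (RR (Lex (L0 × ℕ))) (w α β)) =
          QuotientGroup.mk' (RR (Lex (L0 × ℕ))) (w α γ) := by
        rw [← map_cm]
        congr 1
        exact tv_comm rfl rfl (hlt α β h1) (hlt β γ h2)
      change cm (QuotientGroup.mk' (RR (Lex (L0 × ℕ))) (w β γ))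
          (QuotientGroup.mk' (RR (Lex (L0 × ℕ))) (w α β)) *
          (QuotientGroup.mk' (RR (Lex (L0 × ℕ))) (w α γ))⁻¹ = 1
      rw [h3, mul_inv_cancel]

theorem XX_R [WellFoundedLT L0] (hL0 : 2 ^ (bw : Cardinal.{u}) < #L0) :
    XX L0 (RR (Lex (L0 × ℕ))) := by
  have hwf : WellFoundedLT (Lex (L0 × ℕ)) := inferInstance
  intro Q _ hQ hK
  have hnt := hK.1
  have h1 : HasSys L0 (⊤ : Subgroup Q) := hK.2 ⊤ Subgroup.IsSubnormal.top (by
    intro h
    exact top_ne_bot h)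
  have h2 : IsSec (⊤ : Subgroup Q) Q :=
    IsSec.of_injective (⊤ : Subgroup Q).subtype (⊤ : Subgroup Q).subtype_injective
  exact R_no_sys hL0 ((h1.of_sec h2).of_sec hQ)

end Pool.Agent.W_MP_f46629_al.H89
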